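import Pool.Agent.Q294.OM.AllPM

/-! Asymptotics for almost every ordered matching. -/

set_option autoImplicit false

open Finset

namespace Pool.Agent.Q294.OM

open Classical in
theorem almost_every_pm (θ : ℝ) (h0 : 0 < θ) (h1 : θ < 1 / 2) :
    ∃ C : ℝ, 0 < C ∧ ∀ δ : ℝ, 0 < δ → ∃ n₀ : ℕ, ∀ n ≥ n₀,
      ((univ.filter (fun M : SimpleGraph (Fin n) => IsPM M ∧
        C * (n : ℝ) ^ (2 - θ) < (orderedRamsey (⊤ : SimpleGraph (Fin 3)) M : ℝ))).card : ℝ) ≤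
        δ * ((univ.filter (fun M : SimpleGraph (Fin n) => IsPM M)).card : ℝ) := by
  set β : ℝ := 1 - 2 * θ with hβ
  have hβ0 : 0 < β := by rw [hβ]; linarith
  set m : ℕ := ⌈4 / β⌉₊ + 2 with hm
  have hmβ : 4 ≤ β * m := by
    have h2 := Nat.le_ceil (4 / β)
    have h3 : (4 / β) ≤ m := by
      rw [hm]
      push_cast
      linarith
    rw [div_le_iff₀ hβ0] at h3
    linarith
  refine ⟨768 * m, by positivity, ?_⟩
  intro δ hδ
  -- thresholds
  have hlim : Filter.Tendsto (fun n : ℕ => 2 * (n : ℝ) ^ (-β)) Filter.atTop (nhds 0) := by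
    have := (tendsto_rpow_neg_atTop hβ0).comp tendsto_natCast_atTop_atTop
    simpa using this.const_mul 2
  have hev := (tendsto_order.1 hlim).2 (δ / 2) (half_pos hδ)
  obtain ⟨n₂, hn₂⟩ := Filter.eventually_atTop.1 hev
  obtain ⟨n₁, hn₁⟩ := exists_nat_ge ((2 : ℝ) ^ m / (δ / 2))
  refine ⟨max (max n₁ n₂) (max 16 (4 * m)), ?_⟩
  intro n hn
  have hn1 : n₁ ≤ n := le_trans (le_trans (le_max_left _ _) (le_max_left _ _)) hn
  have hn2 : n₂ ≤ n := le_trans (le_trans (le_max_right _ _) (le_max_left _ _)) hn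
  have hn16 : 16 ≤ n := le_trans (le_trans (le_max_left _ _) (le_max_right _ _)) hn
  have hnm : 4 * m ≤ n := le_trans (le_trans (le_max_right _ _) (le_max_right _ _)) hn
  have hnpos : 0 < n := by omega
  have hn0 : (0 : ℝ) < n := by exact_mod_cast hnpos
  have hn1R : (1 : ℝ) ≤ n := by exact_mod_cast hnpos
  have hn16R : (16 : ℝ) ≤ n := by exact_mod_cast hn16
  set b : ℕ := ⌊(n : ℝ) ^ θ⌋₊ with hb
  have hxθ : (1 : ℝ) ≤ (n : ℝ) ^ θ := Real.one_le_rpow hn1R h0.le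
  have hb1 : 1 ≤ b := (Nat.one_le_floor_iff _).2 hxθ
  have hbR : (b : ℝ) ≤ (n : ℝ) ^ θ := Nat.floor_le (by positivity)
  have hbR2 : (n : ℝ) ^ θ / 2 ≤ (b : ℝ) := by
    have h2 := Nat.lt_floor_add_one ((n : ℝ) ^ θ)
    have h3 : (1 : ℝ) ≤ (b : ℝ) := by exact_mod_cast hb1
    rw [← hb] at h2
    linarith
  have hbn : (b : ℝ) ≤ n / 4 := by
    have h2 : (n : ℝ) ^ θ ≤ (n : ℝ) ^ ((1 : ℝ) / 2) :=
      Real.rpow_le_rpow_of_exponent_le hn1R h1.le
    have h3 : (n : ℝ) ^ ((1 : ℝ) / 2) ≤ n / 4 := by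
      rw [← Real.sqrt_eq_rpow]
      rw [Real.sqrt_le_left (by positivity)]
      nlinarith
    linarith
  set K : ℕ := ⌈(n : ℝ) ^ (1 - θ)⌉₊ with hK
  have hKR : (n : ℝ) ^ (1 - θ) ≤ K := Nat.le_ceil _
  have hK0 : (0 : ℝ) < K := lt_of_lt_of_le (by positivity) hKR
  set T : ℕ := (univ.filter (fun M : SimpleGraph (Fin n) => IsPM M)).card with hT
  -- the two kinds of bad matchings
  set X := (univ.filter (fun M : SimpleGraph (Fin n) => IsPM M ∧ ∃ x y : Fin n,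
      (x : ℕ) / b ≠ (y : ℕ) / b ∧ m ≤ (eb M (blk b x) (blk b y)).card)) with hX
  set Y := (univ.filter (fun M : SimpleGraph (Fin n) => IsPM M ∧ K ≤ (inn b M).card)) with hY
  have hXc : (X.card : ℝ) ≤ δ / 2 * T := by
    have h2 := card_bad_blocks (n := n) b m hb1
    rw [← hX, ← hT] at h2
    have h3 : (X.card : ℝ) * ((n - b - m : ℕ) : ℝ) ^ m ≤
        (n : ℝ) ^ 2 * (((b : ℝ) * b) ^ m * T) := by exact_mod_cast h2
    have hmR : (4 : ℝ) * m ≤ n := by exact_mod_cast hnm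
    have hbn' : b + m ≤ n := by
      have : (b : ℝ) + m ≤ n := by linarith
      exact_mod_cast this
    have h4 : (n : ℝ) / 2 ≤ ((n - b - m : ℕ) : ℝ) := by
      rw [Nat.cast_sub (by omega), Nat.cast_sub (by omega)]
      linarith
    have h5 : (0 : ℝ) < (n : ℝ) / 2 := by positivity
    have h6 : (X.card : ℝ) * ((n : ℝ) / 2) ^ m ≤ (n : ℝ) ^ 2 * (((b : ℝ) * b) ^ m * T) :=
      le_trans (mul_le_mul_of_nonneg_left (pow_le_pow_left₀ h5.le h4 m) (Nat.cast_nonneg _)) h3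
    have h7 : ((b : ℝ) * b) ^ m ≤ ((2 : ℝ) * (n : ℝ) ^ (-β)) ^ m * ((n : ℝ) / 2) ^ m := by
      rw [← mul_pow]
      apply pow_le_pow_left₀ (by positivity)
      calc (b : ℝ) * b ≤ (n : ℝ) ^ θ * (n : ℝ) ^ θ :=
            mul_le_mul hbR hbR (Nat.cast_nonneg _) (by positivity)
        _ = (n : ℝ) ^ (-β) * n := by
            rw [← Real.rpow_add hn0]
            have : θ + θ = -β + 1 := by rw [hβ]; ring
            rw [this, Real.rpow_add hn0, Real.rpow_one]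
        _ = 2 * (n : ℝ) ^ (-β) * (n / 2) := by ring
    have h8 : (X.card : ℝ) ≤ (n : ℝ) ^ 2 * ((2 : ℝ) * (n : ℝ) ^ (-β)) ^ m * T := by
      have h9 : (0 : ℝ) < ((n : ℝ) / 2) ^ m := by positivity
      apply le_of_mul_le_mul_right _ h9
      calc (X.card : ℝ) * ((n : ℝ) / 2) ^ m ≤ (n : ℝ) ^ 2 * (((b : ℝ) * b) ^ m * T) := h6
        _ ≤ (n : ℝ) ^ 2 * ((((2 : ℝ) * (n : ℝ) ^ (-β)) ^ m * ((n : ℝ) / 2) ^ m) * T) := by
            gcongr
        _ = _ := by ring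
    refine h8.trans ?_
    apply mul_le_mul_of_nonneg_right _ (Nat.cast_nonneg _)
    have h2 : ((2 : ℝ) * (n : ℝ) ^ (-β)) ^ m ≤ 2 ^ m * (n : ℝ) ^ (-(4 : ℝ)) := by
      rw [mul_pow]
      apply mul_le_mul_of_nonneg_left _ (by positivity)
      rw [← Real.rpow_natCast, ← Real.rpow_mul hn0.le]
      apply Real.rpow_le_rpow_of_exponent_le hn1R
      linarith
    have h3 : (n : ℝ) ^ 2 * (n : ℝ) ^ (-(4 : ℝ)) ≤ 1 / n := by
      have h4 : (n : ℝ) ^ 2 * (n : ℝ) ^ (-(4 : ℝ)) = (n : ℝ) ^ (-(2 : ℝ)) := by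
        rw [← Real.rpow_natCast, ← Real.rpow_add hn0]
        norm_num
      rw [h4]
      have h5 : (n : ℝ) ^ (-(2 : ℝ)) ≤ (n : ℝ) ^ (-(1 : ℝ)) :=
        Real.rpow_le_rpow_of_exponent_le hn1R (by norm_num)
      rw [Real.rpow_neg_one] at h5
      rw [one_div]
      exact h5
    have h6 : (2 : ℝ) ^ m ≤ (δ / 2) * n := by
      have h7 : (2 : ℝ) ^ m / (δ / 2) ≤ n := hn₁.trans (by exact_mod_cast hn1)
      rw [div_le_iff₀ (by positivity)] at h7
      linarith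
    calc (n : ℝ) ^ 2 * ((2 : ℝ) * (n : ℝ) ^ (-β)) ^ m ≤
        (n : ℝ) ^ 2 * (2 ^ m * (n : ℝ) ^ (-(4 : ℝ))) :=
          mul_le_mul_of_nonneg_left h2 (by positivity)
      _ = 2 ^ m * ((n : ℝ) ^ 2 * (n : ℝ) ^ (-(4 : ℝ))) := by ring
      _ ≤ 2 ^ m * (1 / n) := mul_le_mul_of_nonneg_left h3 (by positivity)
      _ ≤ δ / 2 := by
          rw [mul_one_div, div_le_iff₀ hn0]
          exact h6
  have hYc : (Y.card : ℝ) ≤ δ / 2 * T := by
    have h2 := card_bad_inner (n := n) b K hb1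
    rw [← hY, ← hT] at h2
    have h3 : (K : ℝ) * (Y.card : ℝ) * ((n - 2 : ℕ) : ℝ) ≤ n * b * T := by exact_mod_cast h2
    have h4 : (n : ℝ) / 2 ≤ ((n - 2 : ℕ) : ℝ) := by
      rw [Nat.cast_sub (by omega)]
      push_cast
      linarith
    have h5 : (K : ℝ) * (Y.card : ℝ) * ((n : ℝ) / 2) ≤ n * b * T :=
      le_trans (mul_le_mul_of_nonneg_left h4 (by positivity)) h3
    have h6 : (K : ℝ) * (Y.card : ℝ) ≤ 2 * b * T := by
      have h7 : (0 : ℝ) < (n : ℝ) / 2 := by positivity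
      apply le_of_mul_le_mul_right _ h7
      calc (K : ℝ) * (Y.card : ℝ) * ((n : ℝ) / 2) ≤ n * b * T := h5
        _ = 2 * b * T * (n / 2) := by ring
    have hx1 : (0 : ℝ) < (n : ℝ) ^ (1 - θ) := by positivity
    have h8 : (n : ℝ) ^ (1 - θ) * (Y.card : ℝ) ≤ 2 * (n : ℝ) ^ θ * T := by
      calc (n : ℝ) ^ (1 - θ) * (Y.card : ℝ) ≤ (K : ℝ) * (Y.card : ℝ) :=
            mul_le_mul_of_nonneg_right hKR (Nat.cast_nonneg _)
        _ ≤ 2 * b * T := h6
        _ ≤ 2 * (n : ℝ) ^ θ * T := by gcongr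
    have h9 : 2 * (n : ℝ) ^ θ = (n : ℝ) ^ (1 - θ) * (2 * (n : ℝ) ^ (-β)) := by
      have : θ = (1 - θ) + (-β) := by rw [hβ]; ring
      nth_rewrite 1 [this]
      rw [Real.rpow_add hn0]
      ring
    rw [h9, mul_assoc] at h8
    have h10 := le_of_mul_le_mul_left h8 hx1
    have h11 := (hn₂ n hn2).le
    exact h10.trans (mul_le_mul_of_nonneg_right h11 (Nat.cast_nonneg _))
  have hsub : (univ.filter (fun M : SimpleGraph (Fin n) => IsPM M ∧
      768 * m * (n : ℝ) ^ (2 - θ) < (orderedRamsey (⊤ : SimpleGraph (Fin 3)) M : ℝ))) ⊆ X ∪ Y := by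
    intro M hM
    rw [mem_filter] at hM
    obtain ⟨_, hPM, hbig⟩ := hM
    by_contra hcon
    rw [mem_union, not_or, hX, hY, mem_filter, mem_filter] at hcon
    obtain ⟨hc1, hc2⟩ := hcon
    have h2 : ¬ ∃ x y : Fin n, (x : ℕ) / b ≠ (y : ℕ) / b ∧
        m ≤ (eb M (blk b x) (blk b y)).card := fun h => hc1 ⟨mem_univ _, hPM, h⟩
    have h3 : (inn b M).card < K := by
      by_contra h
      exact hc2 ⟨mem_univ _, hPM, not_lt.1 h⟩
    have h4 := ramsey_of_blocks hb1 (by omega : 2 ≤ m) hnpos hPM.atMostOne h2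
    have h5 : ((inn b M).card : ℝ) ≤ (n : ℝ) ^ (1 - θ) := (Nat.lt_ceil.1 h3).le
    have h6 : ((n / b : ℕ) : ℝ) ≤ 2 * (n : ℝ) ^ (1 - θ) := by
      have hpos : (0 : ℝ) < (n : ℝ) ^ θ / 2 := by positivity
      calc ((n / b : ℕ) : ℝ) ≤ (n : ℝ) / (b : ℝ) := Nat.cast_div_le
        _ ≤ (n : ℝ) / ((n : ℝ) ^ θ / 2) := div_le_div_of_nonneg_left hn0.le hpos hbR2
        _ = 2 * (n : ℝ) ^ (1 - θ) := by
            rw [Real.rpow_sub hn0, Real.rpow_one]
            field_simp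
    have h7 : (1 : ℝ) ≤ (n : ℝ) ^ (1 - θ) := Real.one_le_rpow hn1R (by linarith)
    have h8 : (orderedRamsey (⊤ : SimpleGraph (Fin 3)) M : ℝ) ≤
        (((n / b : ℕ) : ℝ) + 2 + 2 * ((inn b M).card : ℝ)) * (128 * m * n) := by
      exact_mod_cast h4
    have h9 : (n : ℝ) ^ (1 - θ) * n = (n : ℝ) ^ (2 - θ) := by
      have : (2 - θ) = (1 - θ) + 1 := by ring
      rw [this, Real.rpow_add hn0, Real.rpow_one]
    have h10 : (((n / b : ℕ) : ℝ) + 2 + 2 * ((inn b M).card : ℝ)) * (128 * m * n) ≤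
        768 * m * (n : ℝ) ^ (2 - θ) := by
      calc (((n / b : ℕ) : ℝ) + 2 + 2 * ((inn b M).card : ℝ)) * (128 * m * n) ≤
          (6 * (n : ℝ) ^ (1 - θ)) * (128 * m * n) := by
            apply mul_le_mul_of_nonneg_right _ (by positivity)
            linarith
        _ = 768 * m * ((n : ℝ) ^ (1 - θ) * n) := by ring
        _ = _ := by rw [h9]
    linarith
  have h2 := (card_le_card hsub).trans (card_union_le _ _)
  have h3 : ((univ.filter (fun M : SimpleGraph (Fin n) => IsPM M ∧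
      768 * m * (n : ℝ) ^ (2 - θ) < (orderedRamsey (⊤ : SimpleGraph (Fin 3)) M : ℝ))).card : ℝ) ≤
      (X.card : ℝ) + Y.card := by exact_mod_cast h2
  linarith

theorem tendsto_pm (θ : ℝ) (h0 : 0 < θ) (h1 : θ < 1 / 2) :
    ∃ C : ℝ, 0 < C ∧ Filter.Tendsto (fun N : ℕ =>
      (({M : SimpleGraph (Fin (2 * N)) | IsPM M ∧
        (orderedRamsey (⊤ : SimpleGraph (Fin 3)) M : ℝ) ≤
          C * ((2 * N : ℕ) : ℝ) ^ (2 - θ)}.ncard : ℕ) : ℝ) /
      (({M : SimpleGraph (Fin (2 * N)) | IsPM M}.ncard : ℕ) : ℝ))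
      Filter.atTop (nhds 1) := by
  classical
  obtain ⟨C, hC, h⟩ := almost_every_pm θ h0 h1
  refine ⟨C, hC, ?_⟩
  rw [Metric.tendsto_atTop]
  intro δ hδ
  obtain ⟨n₀, hn₀⟩ := h (δ / 2) (half_pos hδ)
  refine ⟨max n₀ 2, ?_⟩
  intro N hN
  have hN1 : n₀ ≤ 2 * N := by
    have := le_max_left n₀ 2
    omega
  have hN2 : 2 ≤ N := le_trans (le_max_right _ _) hN
  set A := univ.filter (fun M : SimpleGraph (Fin (2 * N)) => IsPM M) with hA
  set S := univ.filter (fun M : SimpleGraph (Fin (2 * N)) => IsPM M ∧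
    (orderedRamsey (⊤ : SimpleGraph (Fin 3)) M : ℝ) ≤ C * ((2 * N : ℕ) : ℝ) ^ (2 - θ)) with hS
  set L := univ.filter (fun M : SimpleGraph (Fin (2 * N)) => IsPM M ∧
    C * ((2 * N : ℕ) : ℝ) ^ (2 - θ) < (orderedRamsey (⊤ : SimpleGraph (Fin 3)) M : ℝ)) with hL
  have eA : {M : SimpleGraph (Fin (2 * N)) | IsPM M}.ncard = A.card := by
    rw [← Set.ncard_coe_finset]
    congr 1
    ext M
    simp [hA]
  have eS : {M : SimpleGraph (Fin (2 * N)) | IsPM M ∧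
      (orderedRamsey (⊤ : SimpleGraph (Fin 3)) M : ℝ) ≤
        C * ((2 * N : ℕ) : ℝ) ^ (2 - θ)}.ncard = S.card := by
    rw [← Set.ncard_coe_finset]
    congr 1
    ext M
    simp [hS]
  have hsum : S.card + L.card = A.card := by
    have h2 : S = A.filter (fun M => (orderedRamsey (⊤ : SimpleGraph (Fin 3)) M : ℝ) ≤
        C * ((2 * N : ℕ) : ℝ) ^ (2 - θ)) := by
      rw [hS, hA, filter_filter]
    have h3 : L = A.filter (fun M => ¬ (orderedRamsey (⊤ : SimpleGraph (Fin 3)) M : ℝ) ≤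
        C * ((2 * N : ℕ) : ℝ) ^ (2 - θ)) := by
      rw [hL, hA, filter_filter]
      simp only [not_le]
    rw [h2, h3]
    exact card_filter_add_card_filter_not _
  have hpos : (0 : ℝ) < (A.card : ℝ) := by
    have h2 : 0 < (cls (2 * N) 2).ncard := cls_nonempty (k := 2) le_rfl hN2
    rw [Set.ncard_pos (Set.toFinite _)] at h2
    obtain ⟨M, hM, _⟩ := h2
    have : 0 < A.card := by
      rw [card_pos]
      exact ⟨M, by rw [hA, mem_filter]; exact ⟨mem_univ _, hM⟩⟩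
    exact_mod_cast this
  have hb := hn₀ (2 * N) hN1
  rw [← hL, ← hA] at hb
  have hsumR : (S.card : ℝ) + (L.card : ℝ) = (A.card : ℝ) := by exact_mod_cast hsum
  rw [eA, eS, Real.dist_eq, abs_sub_comm, abs_of_nonneg]
  · rw [← hsumR]
    rw [← hsumR] at hpos hb
    rw [one_sub_div hpos.ne', div_lt_iff₀ hpos]
    have : (0 : ℝ) ≤ (L.card : ℝ) := Nat.cast_nonneg _
    nlinarith
  · rw [sub_nonneg, div_le_one hpos, ← hsumR]
    have : (0 : ℝ) ≤ (L.card : ℝ) := Nat.cast_nonneg _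
    linarith

end Pool.Agent.Q294.OM
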