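import Pool.Agent.Q294.OM.Nonempty

/-! Almost every ordered matching, without restriction on the interval chromatic number. -/

set_option autoImplicit false

open Finset

namespace Pool.Agent.Q294.OM

variable {n : ℕ}

/-- the block of `x` -/
def blk (b : ℕ) (x : Fin n) : Finset (Fin n) := univ.filter (fun y => (y : ℕ) / b = (x : ℕ) / b)

theorem mem_blk {b : ℕ} {x y : Fin n} : y ∈ blk b x ↔ (y : ℕ) / b = (x : ℕ) / b := by
  unfold blk
  rw [mem_filter]
  exact ⟨fun h => h.2, fun h => ⟨mem_univ _, h⟩⟩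

theorem card_blk {b : ℕ} (hb : 1 ≤ b) (x : Fin n) : (blk b x).card ≤ b := by
  have h1 : ((blk b x).map Fin.valEmbedding).card ≤
      (Finset.Ico (((x : ℕ) / b) * b) (((x : ℕ) / b + 1) * b)).card := by
    apply card_le_card
    intro y hy
    rw [mem_map] at hy
    obtain ⟨z, hz, rfl⟩ := hy
    rw [mem_blk] at hz
    rw [Finset.mem_Ico, ← hz]
    show (z : ℕ) / b * b ≤ (z : ℕ) ∧ (z : ℕ) < ((z : ℕ) / b + 1) * b
    constructor
    · exact Nat.div_mul_le_self _ _
    · rw [mul_comm]
      exact Nat.lt_mul_div_succ _ hb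
  rw [card_map, Nat.card_Ico, add_mul, one_mul] at h1
  omega

open Classical in
/-- the vertices matched inside their block -/
noncomputable def inn (b : ℕ) (M : SimpleGraph (Fin n)) : Finset (Fin n) :=
  univ.filter (fun x => ∃ y, M.Adj x y ∧ (y : ℕ) / b = (x : ℕ) / b)

theorem mem_inn {b : ℕ} {M : SimpleGraph (Fin n)} {x : Fin n} :
    x ∈ inn b M ↔ ∃ y, M.Adj x y ∧ (y : ℕ) / b = (x : ℕ) / b := by
  classical
  unfold inn
  rw [mem_filter]
  exact ⟨fun h => h.2, fun h => ⟨mem_univ _, h⟩⟩

/-- the cut points -/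
noncomputable def cuts (b : ℕ) (M : SimpleGraph (Fin n)) : Finset (Fin n) := by
  classical
  exact univ.filter (fun x => b ∣ (x : ℕ)) ∪ inn b M ∪
    univ.filter (fun x => ∃ y ∈ inn b M, (y : ℕ) + 1 = x)

theorem mem_cuts {b : ℕ} {M : SimpleGraph (Fin n)} {x : Fin n} :
    x ∈ cuts b M ↔ (b ∣ (x : ℕ)) ∨ x ∈ inn b M ∨ ∃ y ∈ inn b M, (y : ℕ) + 1 = x := by
  classical
  unfold cuts
  rw [mem_union, mem_union, mem_filter, mem_filter]
  simp only [mem_univ, true_and, or_assoc]

theorem card_cuts {b : ℕ} (_hb : 1 ≤ b) (M : SimpleGraph (Fin n)) :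
    (cuts b M).card ≤ n / b + 1 + 2 * (inn b M).card := by
  classical
  have h1 : (univ.filter (fun x : Fin n => b ∣ (x : ℕ))).card ≤ n / b + 1 := by
    have : (univ.filter (fun x : Fin n => b ∣ (x : ℕ))).card ≤ (range (n / b + 1)).card := by
      apply card_le_card_of_injOn (fun x : Fin n => (x : ℕ) / b)
      · intro x _
        rw [mem_coe, mem_range, Nat.lt_succ_iff]
        exact Nat.div_le_div_right x.2.le
      · intro x hx y hy h
        simp only [coe_filter, mem_univ, true_and, Set.mem_ofPred_eq] at hx hy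
        simp only at h
        apply Fin.ext
        rw [← Nat.div_mul_cancel hx, ← Nat.div_mul_cancel hy, h]
    rwa [card_range] at this
  have h2 : (univ.filter (fun x : Fin n => ∃ y ∈ inn b M, (y : ℕ) + 1 = x)).card ≤
      (inn b M).card := by
    have : (univ.filter (fun x : Fin n => ∃ y ∈ inn b M, (y : ℕ) + 1 = x)).map Fin.valEmbedding ⊆
        (inn b M).image (fun y : Fin n => (y : ℕ) + 1) := by
      intro z hz
      rw [mem_map] at hz
      obtain ⟨x, hx, rfl⟩ := hz
      rw [mem_filter] at hx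
      obtain ⟨_, y, hy, hxy⟩ := hx
      rw [mem_image]
      exact ⟨y, hy, hxy⟩
    have h3 := card_le_card this
    rw [card_map] at h3
    exact h3.trans card_image_le
  unfold cuts
  refine (card_union_le _ _).trans ?_
  have := card_union_le (univ.filter (fun x : Fin n => b ∣ (x : ℕ))) (inn b M)
  omega

/-- if `x < y` lie in one group, then there is no cut between them -/
theorem part_cut {D : Finset (Fin n)} {x y : Fin n} (hxy : x < y) (h : part D x = part D y)
    {z : Fin n} (hz : z ∈ D) : z ≤ x ∨ y < z := by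
  by_contra hcon
  push Not at hcon
  have h1 : part D x < part D y := by
    apply card_lt_card
    refine ⟨?_, ?_⟩
    · intro d hd
      rw [mem_filter] at hd ⊢
      exact ⟨hd.1, hd.2.trans hxy.le⟩
    · intro h2
      have : z ∈ D.filter (fun d => d ≤ x) := h2 (by rw [mem_filter]; exact ⟨hz, hcon.2⟩)
      rw [mem_filter] at this
      exact absurd this.2 (not_le.2 hcon.1)
  omega

theorem group_facts {b : ℕ} (hb : 1 ≤ b) {M : SimpleGraph (Fin n)} {x y : Fin n} (hxy : x < y)
    (h : part (cuts b M) x = part (cuts b M) y) :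
    (x : ℕ) / b = (y : ℕ) / b ∧ x ∉ inn b M ∧ y ∉ inn b M := by
  rw [Fin.lt_def] at hxy
  refine ⟨?_, ?_, ?_⟩
  · by_contra hne
    have hlt : (x : ℕ) / b < (y : ℕ) / b :=
      lt_of_le_of_ne (Nat.div_le_div_right hxy.le) hne
    have h1 : (y : ℕ) / b * b ≤ y := Nat.div_mul_le_self _ _
    have h2 : (x : ℕ) < (y : ℕ) / b * b := by
      have h3 := Nat.lt_mul_div_succ (x : ℕ) hb
      have h4 : b * ((x : ℕ) / b + 1) ≤ (y : ℕ) / b * b := by
        rw [mul_comm]
        exact Nat.mul_le_mul_right _ hlt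
      omega
    let z : Fin n := ⟨(y : ℕ) / b * b, lt_of_le_of_lt h1 y.2⟩
    have hz : z ∈ cuts b M := mem_cuts.2 (Or.inl (Dvd.intro_left _ rfl))
    rcases part_cut hxy h hz with h5 | h5
    · rw [Fin.le_def] at h5
      simp only [z] at h5
      omega
    · rw [Fin.lt_def] at h5
      simp only [z] at h5
      omega
  · intro hx
    let z : Fin n := ⟨(x : ℕ) + 1, by have := y.2; omega⟩
    have hz : z ∈ cuts b M := mem_cuts.2 (Or.inr (Or.inr ⟨x, hx, rfl⟩))
    rcases part_cut hxy h hz with h5 | h5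
    · rw [Fin.le_def] at h5
      simp only [z] at h5
      omega
    · rw [Fin.lt_def] at h5
      simp only [z] at h5
      omega
  · intro hy
    have hz : y ∈ cuts b M := mem_cuts.2 (Or.inr (Or.inl hy))
    rcases part_cut hxy h hz with h5 | h5
    · rw [Fin.le_def] at h5
      omega
    · exact lt_irrefl _ h5

/-- ordered Ramsey number with the triangle in the first place -/
theorem orderedRamsey_le' {N : ℕ} (M : SimpleGraph (Fin n))
    (h : ∀ B : SimpleGraph (Fin N), (∀ a b c, B.Adj a b → B.Adj b c → ¬ B.Adj a c) →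
      ∃ f : Fin n → Fin N, StrictMono f ∧ ∀ i j, M.Adj i j → ¬ B.Adj (f i) (f j)) :
    orderedRamsey (⊤ : SimpleGraph (Fin 3)) M ≤ N := by
  apply Nat.sInf_le
  intro R
  by_cases hR : OrdContains R (⊤ : SimpleGraph (Fin 3))
  · exact Or.inl hR
  right
  have hB : ∀ a b c, R.Adj a b → R.Adj b c → ¬ R.Adj a c := by
    intro a b c hab hbc hac
    apply hR
    have hcard : ({a, b, c} : Finset (Fin N)).card = 3 := by
      rw [card_eq_three]
      exact ⟨a, b, c, hab.ne, hac.ne, hbc.ne, rfl⟩
    refine ⟨({a, b, c} : Finset (Fin N)).orderEmbOfFin hcard,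
      (({a, b, c} : Finset (Fin N)).orderEmbOfFin hcard).strictMono, ?_⟩
    intro x y hxy
    have hne : x ≠ y := hxy
    have h1 := ({a, b, c} : Finset (Fin N)).orderEmbOfFin_mem hcard x
    have h2 := ({a, b, c} : Finset (Fin N)).orderEmbOfFin_mem hcard y
    have h3 : ({a, b, c} : Finset (Fin N)).orderEmbOfFin hcard x ≠
        ({a, b, c} : Finset (Fin N)).orderEmbOfFin hcard y := fun h =>
      hne ((({a, b, c} : Finset (Fin N)).orderEmbOfFin hcard).injective h)
    simp only [mem_insert, mem_singleton] at h1 h2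
    rcases h1 with h1 | h1 | h1 <;> rcases h2 with h2 | h2 | h2 <;> rw [h1, h2] at h3 ⊢
    · exact absurd rfl h3
    · exact hab
    · exact hac
    · exact hab.symm
    · exact absurd rfl h3
    · exact hbc
    · exact hac.symm
    · exact hbc.symm
    · exact absurd rfl h3
  obtain ⟨f, hf, hadj⟩ := h R hB
  refine ⟨f, hf, ?_⟩
  intro x y hxy
  rw [SimpleGraph.compl_adj]
  exact ⟨hf.injective.ne hxy.ne, hadj x y hxy⟩

/-- a matching with few edges between blocks has small ordered Ramsey number -/
theorem ramsey_of_blocks {b m : ℕ} (hb : 1 ≤ b) (hm : 2 ≤ m) (hn : 0 < n)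
    {M : SimpleGraph (Fin n)} (hM : AtMostOne M)
    (hbad : ¬ ∃ x y : Fin n, (x : ℕ) / b ≠ (y : ℕ) / b ∧ m ≤ (eb M (blk b x) (blk b y)).card) :
    orderedRamsey (⊤ : SimpleGraph (Fin 3)) M ≤
      (n / b + 2 + 2 * (inn b M).card) * (128 * m * n) := by
  classical
  apply orderedRamsey_le'
  intro B hB
  have hlt : ∀ x : Fin n, part (cuts b M) x < n / b + 2 + 2 * (inn b M).card := fun x => by
    have h1 := part_le (cuts b M) x
    have h2 := card_cuts hb M
    generalize n / b = q at *
    omega
  have hw0 : 0 < 128 * m * n := by positivity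
  refine embed (c := m) (s := n) (w := 128 * m * n) (G := n / b + 2 + 2 * (inn b M).card) M
    (fun x => ⟨part (cuts b M) x, hlt x⟩) ?_ ?_ ?_ ?_ le_rfl ?_ hw0 le_rfl B hB
  · intro x y hxy
    exact part_mono (cuts b M) hxy
  · intro P
    exact (card_le_univ _).trans (by simp)
  · intro x y hxy heq
    have h1 : part (cuts b M) x = part (cuts b M) y := congrArg Fin.val heq
    rcases lt_or_gt_of_ne hxy.ne with h2 | h2
    · obtain ⟨h3, h4, _⟩ := group_facts hb h2 h1
      exact h4 (mem_inn.2 ⟨y, hxy, h3.symm⟩)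
    · obtain ⟨h3, h4, _⟩ := group_facts hb h2 h1.symm
      exact h4 (mem_inn.2 ⟨x, hxy.symm, h3.symm⟩)
  · rintro ⟨P, hP⟩ ⟨Q, hQ⟩
    have hset : (univ.filter (fun p : Fin n × Fin n => M.Adj p.1 p.2 ∧
        (⟨part (cuts b M) p.1, hlt p.1⟩ : Fin (n / b + 2 + 2 * (inn b M).card)) = ⟨P, hP⟩ ∧
        (⟨part (cuts b M) p.2, hlt p.2⟩ : Fin (n / b + 2 + 2 * (inn b M).card)) = ⟨Q, hQ⟩)) =
        eb M (univ.filter (fun x => part (cuts b M) x = P))
          (univ.filter (fun x => part (cuts b M) x = Q)) := by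
      ext p
      rw [mem_eb]
      simp only [mem_filter, mem_univ, true_and, Fin.mk.injEq]
      tauto
    rw [hset]
    by_contra hcon
    rw [not_le] at hcon
    have hne : (eb M (univ.filter (fun x => part (cuts b M) x = P))
        (univ.filter (fun x => part (cuts b M) x = Q))).Nonempty := by
      rw [← card_pos]
      omega
    obtain ⟨⟨u, v⟩, huv⟩ := hne
    rw [mem_eb] at huv
    simp only [mem_filter, mem_univ, true_and] at huv
    obtain ⟨⟨hu, hv⟩, hadj⟩ := huv
    have hsubblk : ∀ (w : Fin n) (W : ℕ), part (cuts b M) w = W →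
        univ.filter (fun x => part (cuts b M) x = W) ⊆ blk b w := by
      intro w W hw z hz
      rw [mem_filter] at hz
      rw [mem_blk]
      have h1 : part (cuts b M) z = part (cuts b M) w := hz.2.trans hw.symm
      rcases lt_trichotomy z w with h2 | h2 | h2
      · exact (group_facts hb h2 h1).1
      · rw [h2]
      · exact (group_facts hb h2 h1.symm).1.symm
    by_cases hblk : (u : ℕ) / b = (v : ℕ) / b
    · have huin : u ∈ inn b M := mem_inn.2 ⟨v, hadj, hblk.symm⟩
      have h1 : (univ.filter (fun x : Fin n => part (cuts b M) x = P)).card ≤ 1 := by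
        have honly : ∀ z ∈ univ.filter (fun x : Fin n => part (cuts b M) x = P), z = u := by
          intro z hz
          rw [mem_filter] at hz
          have h1 : part (cuts b M) z = part (cuts b M) u := hz.2.trans hu.symm
          rcases lt_trichotomy z u with h2 | h2 | h2
          · exact absurd huin (group_facts hb h2 h1).2.2
          · exact h2
          · exact absurd huin (group_facts hb h2 h1.symm).2.1
        rw [card_le_one]
        intro a ha c hc
        rw [honly a ha, honly c hc]
      have h2 := eb_card_le hM (univ.filter (fun x : Fin n => part (cuts b M) x = P))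
        (univ.filter (fun x : Fin n => part (cuts b M) x = Q))
      omega
    · apply hbad
      refine ⟨u, v, hblk, hcon.le.trans ?_⟩
      apply card_le_card
      intro p hp
      rw [mem_eb] at hp ⊢
      exact ⟨⟨hsubblk u P hu hp.1.1, hsubblk v Q hv hp.1.2⟩, hp.2⟩
  · nlinarith

open Classical in
/-- few matchings have many edges between two blocks -/
theorem card_bad_blocks (b m : ℕ) (hb : 1 ≤ b) :
    ((univ.filter (fun M : SimpleGraph (Fin n) => IsPM M ∧ ∃ x y : Fin n,
      (x : ℕ) / b ≠ (y : ℕ) / b ∧ m ≤ (eb M (blk b x) (blk b y)).card)).card) *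
        (n - b - m) ^ m ≤
      n ^ 2 * ((b * b) ^ m * (univ.filter (fun M : SimpleGraph (Fin n) => IsPM M)).card) := by
  set 𝓒 := univ.filter (fun M : SimpleGraph (Fin n) => IsPM M) with h𝓒
  have h1 : ∀ M ∈ 𝓒, AtMostOne M := by
    intro M hM
    rw [h𝓒, mem_filter] at hM
    exact hM.2.atMostOne
  have hpair : ∀ p ∈ (univ : Finset (Fin n × Fin n)).filter
      (fun p => (p.1 : ℕ) / b ≠ (p.2 : ℕ) / b),
      (𝓒.filter (fun M => m ≤ (eb M (blk b p.1) (blk b p.2)).card)).card * (n - b - m) ^ m ≤
        (b * b) ^ m * 𝓒.card := by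
    rintro ⟨x, y⟩ hp
    rw [mem_filter] at hp
    have hxy : (x : ℕ) / b ≠ (y : ℕ) / b := hp.2
    have hc := count_many (m := m) 𝓒 (univ \ blk b y) (blk b x) (blk b y) h1 ?_ ?_ ?_
    · have hL : n - b ≤ (univ \ blk b y : Finset (Fin n)).card := by
        rw [card_sdiff_of_subset (subset_univ _), card_univ, Fintype.card_fin]
        have := card_blk hb y
        omega
      calc (𝓒.filter (fun M => m ≤ (eb M (blk b x) (blk b y)).card)).card * (n - b - m) ^ m
          ≤ _ := Nat.mul_le_mul_left _ (Nat.pow_le_pow_left (Nat.sub_le_sub_right hL m) m)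
        _ ≤ _ := hc
        _ ≤ _ := Nat.mul_le_mul_right _ (Nat.pow_le_pow_left
            (Nat.mul_le_mul (card_blk hb x) (card_blk hb y)) m)
    · intro M hM a _ c _
      rw [h𝓒, mem_filter] at hM ⊢
      exact ⟨mem_univ _, hM.2.sw a c⟩
    · intro z hz
      rw [mem_sdiff]
      refine ⟨mem_univ _, ?_⟩
      rw [mem_blk] at hz ⊢
      omega
    · rw [Finset.disjoint_left]
      intro z hz hz'
      rw [mem_sdiff] at hz'
      exact hz'.2 hz
  have hsub : (univ.filter (fun M : SimpleGraph (Fin n) => IsPM M ∧ ∃ x y : Fin n,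
      (x : ℕ) / b ≠ (y : ℕ) / b ∧ m ≤ (eb M (blk b x) (blk b y)).card)) ⊆
      ((univ : Finset (Fin n × Fin n)).filter (fun p => (p.1 : ℕ) / b ≠ (p.2 : ℕ) / b)).biUnion
        (fun p => 𝓒.filter (fun M => m ≤ (eb M (blk b p.1) (blk b p.2)).card)) := by
    intro M hM
    rw [mem_filter] at hM
    obtain ⟨_, hPM, x, y, hxy, h⟩ := hM
    rw [mem_biUnion]
    refine ⟨(x, y), ?_, ?_⟩
    · rw [mem_filter]
      exact ⟨mem_univ _, hxy⟩
    · rw [mem_filter, h𝓒, mem_filter]
      exact ⟨⟨mem_univ _, hPM⟩, h⟩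
  calc _ ≤ (∑ p ∈ (univ : Finset (Fin n × Fin n)).filter
        (fun p => (p.1 : ℕ) / b ≠ (p.2 : ℕ) / b),
        (𝓒.filter (fun M => m ≤ (eb M (blk b p.1) (blk b p.2)).card)).card) *
          (n - b - m) ^ m :=
        Nat.mul_le_mul_right _ ((card_le_card hsub).trans card_biUnion_le)
    _ = ∑ p ∈ (univ : Finset (Fin n × Fin n)).filter
        (fun p => (p.1 : ℕ) / b ≠ (p.2 : ℕ) / b),
        (𝓒.filter (fun M => m ≤ (eb M (blk b p.1) (blk b p.2)).card)).card *
          (n - b - m) ^ m := sum_mul _ _ _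
    _ ≤ ∑ _p ∈ (univ : Finset (Fin n × Fin n)).filter
        (fun p => (p.1 : ℕ) / b ≠ (p.2 : ℕ) / b), (b * b) ^ m * 𝓒.card := sum_le_sum hpair
    _ = ((univ : Finset (Fin n × Fin n)).filter
        (fun p => (p.1 : ℕ) / b ≠ (p.2 : ℕ) / b)).card * ((b * b) ^ m * 𝓒.card) := by
        rw [sum_const, smul_eq_mul]
    _ ≤ n ^ 2 * ((b * b) ^ m * 𝓒.card) := by
        apply Nat.mul_le_mul_right
        refine (card_filter_le _ _).trans ?_
        simp [pow_two]

open Classical in
/-- few matchings have many edges inside blocks -/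
theorem card_bad_inner (b K : ℕ) (hb : 1 ≤ b) :
    K * ((univ.filter (fun M : SimpleGraph (Fin n) => IsPM M ∧ K ≤ (inn b M).card)).card) *
        (n - 2) ≤
      n * b * (univ.filter (fun M : SimpleGraph (Fin n) => IsPM M)).card := by
  set 𝓒 := univ.filter (fun M : SimpleGraph (Fin n) => IsPM M) with h𝓒
  have h1 : ∀ M ∈ 𝓒, AtMostOne M := by
    intro M hM
    rw [h𝓒, mem_filter] at hM
    exact hM.2.atMostOne
  -- one pair
  have hone : ∀ x y : Fin n, x ≠ y → (𝓒.filter (fun M => M.Adj x y)).card * (n - 2) ≤ 𝓒.card := by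
    intro x y hxy
    have hc := count_prescribed (m := 1) 𝓒 (univ \ {y}) h1 ?_ (fun _ => x) (fun _ => y) ?_ ?_ ?_
    · have hL : n - 1 ≤ (univ \ {y} : Finset (Fin n)).card := by
        rw [card_sdiff_of_subset (subset_univ _), card_univ, Fintype.card_fin, card_singleton]
      rw [pow_one] at hc
      have e1 : (𝓒.filter (fun M => ∀ _i : Fin 1, M.Adj x y)) =
          (𝓒.filter (fun M => M.Adj x y)) := by
        apply filter_congr
        intro M _
        exact ⟨fun h => h 0, fun h _ => h⟩
      rw [e1] at hc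
      refine (Nat.mul_le_mul_left _ ?_).trans hc
      omega
    · intro M hM a _ c _
      rw [h𝓒, mem_filter] at hM ⊢
      exact ⟨mem_univ _, hM.2.sw a c⟩
    · intro i j _
      exact Subsingleton.elim i j
    · intro _
      rw [mem_sdiff, mem_singleton]
      exact ⟨mem_univ _, hxy⟩
    · intro _
      rw [mem_sdiff, mem_singleton]
      simp
  -- double counting
  have hinn : ∀ M ∈ 𝓒, (inn b M).card ≤
      ∑ x : Fin n, ∑ y ∈ (blk b x).erase x, (if M.Adj x y then 1 else 0) := by
    intro M _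
    rw [inn, card_filter]
    apply sum_le_sum
    intro x _
    split_ifs with h
    · obtain ⟨y, hy1, hy2⟩ := h
      have hy : y ∈ (blk b x).erase x := by
        rw [mem_erase, mem_blk]
        exact ⟨hy1.ne', hy2⟩
      have := single_le_sum (f := fun y => if M.Adj x y then 1 else 0)
        (fun i _ => Nat.zero_le _) hy
      simp only [hy1, if_true] at this
      exact this
    · exact Nat.zero_le _
  have hsum : (∑ M ∈ 𝓒, (inn b M).card) * (n - 2) ≤ n * b * 𝓒.card := by
    calc (∑ M ∈ 𝓒, (inn b M).card) * (n - 2) ≤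
        (∑ M ∈ 𝓒, ∑ x : Fin n, ∑ y ∈ (blk b x).erase x, (if M.Adj x y then 1 else 0)) *
          (n - 2) := Nat.mul_le_mul_right _ (sum_le_sum hinn)
      _ = (∑ x : Fin n, ∑ y ∈ (blk b x).erase x, (𝓒.filter (fun M => M.Adj x y)).card) *
          (n - 2) := by
          congr 1
          rw [sum_comm]
          refine sum_congr rfl fun x _ => ?_
          rw [sum_comm]
          refine sum_congr rfl fun y _ => ?_
          rw [card_filter]
      _ = ∑ x : Fin n, ∑ y ∈ (blk b x).erase x, (𝓒.filter (fun M => M.Adj x y)).card *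
          (n - 2) := by
          rw [sum_mul]
          refine sum_congr rfl fun x _ => ?_
          rw [sum_mul]
      _ ≤ ∑ x : Fin n, ∑ _y ∈ (blk b x).erase x, 𝓒.card := by
          apply sum_le_sum
          intro x _
          apply sum_le_sum
          intro y hy
          exact hone x y (mem_erase.1 hy).1.symm
      _ ≤ ∑ _x : Fin n, b * 𝓒.card := by
          apply sum_le_sum
          intro x _
          rw [sum_const, smul_eq_mul]
          exact Nat.mul_le_mul_right _ ((card_erase_le).trans (card_blk hb x))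
      _ = n * b * 𝓒.card := by
          rw [sum_const, card_univ, Fintype.card_fin, smul_eq_mul]
          ring
  have hmarkov : K * ((univ.filter (fun M : SimpleGraph (Fin n) => IsPM M ∧
      K ≤ (inn b M).card)).card) ≤ ∑ M ∈ 𝓒, (inn b M).card := by
    have e2 : (univ.filter (fun M : SimpleGraph (Fin n) => IsPM M ∧ K ≤ (inn b M).card)) =
        𝓒.filter (fun M => K ≤ (inn b M).card) := by
      rw [h𝓒, filter_filter]
    rw [e2, mul_comm, ← smul_eq_mul, ← sum_const]
    calc ∑ _M ∈ 𝓒.filter (fun M => K ≤ (inn b M).card), K ≤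
        ∑ M ∈ 𝓒.filter (fun M => K ≤ (inn b M).card), (inn b M).card := by
          apply sum_le_sum
          intro M hM
          rw [mem_filter] at hM
          exact hM.2
      _ ≤ _ := sum_le_sum_of_subset (filter_subset _ _)
  calc _ ≤ (∑ M ∈ 𝓒, (inn b M).card) * (n - 2) := Nat.mul_le_mul_right _ hmarkov
    _ ≤ _ := hsum

end Pool.Agent.Q294.OM
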