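import Pool.Agent.Q294.OM.Groups

/-! Almost every ordered matching with interval chromatic number `k`. -/

set_option autoImplicit false

open Finset

namespace Pool.Agent.Q294.OM

/-- block sizes -/
noncomputable def bsz (θ : ℝ) (n t : ℕ) : ℕ := if t * t < n then 1 else ⌊(t : ℝ) ^ θ⌋₊

theorem bsz_pos {θ : ℝ} (h0 : 0 < θ) {n : ℕ} (hn : 0 < n) (t : ℕ) : 1 ≤ bsz θ n t := by
  unfold bsz
  split_ifs with h
  · exact le_rfl
  · have ht : 1 ≤ t := by
      rcases Nat.eq_zero_or_pos t with h1 | h1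
      · rw [h1] at h; omega
      · exact h1
    rw [Nat.one_le_floor_iff]
    exact Real.one_le_rpow (by exact_mod_cast ht) h0.le

theorem thr {n : ℕ} (hn : 0 < n) (t : ℕ) : t < Nat.sqrt (n - 1) + 1 ↔ t * t < n := by
  rw [Nat.lt_succ_iff, Nat.le_sqrt]
  omega

theorem bsz_mono {θ : ℝ} (h0 : 0 < θ) {n : ℕ} {t t' : ℕ} (ht : ¬ t * t < n) (htt : t ≤ t') :
    bsz θ n t ≤ bsz θ n t' := by
  have ht' : ¬ t' * t' < n := by
    have := Nat.mul_le_mul htt htt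
    omega
  unfold bsz
  rw [if_neg ht, if_neg ht']
  apply Nat.floor_mono
  exact Real.rpow_le_rpow (by positivity) (by exact_mod_cast htt) h0.le

theorem bsz_bound {θ : ℝ} (h0 : 0 < θ) (h1 : θ < 1 / 2) {n m t : ℕ} (hn : 0 < n)
    (ht : ¬ t * t < n) (hnm : (2 * m + 2) * (2 * m + 2) < n) :
    m + 1 < t ∧ (((bsz θ n t) ^ 2 : ℕ) : ℝ) ^ m ≤
      (2 * (n : ℝ) ^ (-((1 - 2 * θ) / 2))) ^ m * (((t - 1 - m : ℕ) : ℝ)) ^ m := by
  have htm : 2 * m + 2 < t := by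
    by_contra hcon
    rw [not_lt] at hcon
    have := Nat.mul_le_mul hcon hcon
    omega
  refine ⟨by omega, ?_⟩
  rw [← mul_pow]
  apply pow_le_pow_left₀ (by positivity)
  have ht0 : (0 : ℝ) < t := by
    have : 0 < t := by omega
    exact_mod_cast this
  have hn0 : (0 : ℝ) < n := by exact_mod_cast hn
  have hb : ((bsz θ n t : ℕ) : ℝ) ≤ (t : ℝ) ^ θ := by
    unfold bsz
    rw [if_neg ht]
    exact Nat.floor_le (by positivity)
  have hb2 : (((bsz θ n t) ^ 2 : ℕ) : ℝ) ≤ (t : ℝ) ^ (2 * θ) := by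
    push_cast
    calc ((bsz θ n t : ℕ) : ℝ) ^ 2 ≤ ((t : ℝ) ^ θ) ^ 2 := pow_le_pow_left₀ (by positivity) hb 2
      _ = (t : ℝ) ^ (2 * θ) := by
          rw [← Real.rpow_natCast, ← Real.rpow_mul ht0.le]
          congr 1
          push_cast
          ring
  have hsub : (t : ℝ) / 2 ≤ ((t - 1 - m : ℕ) : ℝ) := by
    have h3 : ((t - 1 - m : ℕ) : ℝ) = (t : ℝ) - 1 - m := by
      rw [Nat.cast_sub (by omega), Nat.cast_sub (by omega)]
      simp
    have h4 : (2 * (m : ℝ) + 2) ≤ t := by exact_mod_cast htm.le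
    rw [h3]
    linarith
  have hsq : (n : ℝ) ≤ (t : ℝ) * t := by
    rw [not_lt] at ht
    exact_mod_cast ht
  have hkey : (t : ℝ) ^ (2 * θ) ≤ t * (n : ℝ) ^ (-((1 - 2 * θ) / 2)) := by
    have e1 : (t : ℝ) ^ (2 * θ) = t * (t : ℝ) ^ (-(1 - 2 * θ)) := by
      have e2 : (2 * θ) = 1 + (-(1 - 2 * θ)) := by ring
      rw [e2, Real.rpow_add ht0, Real.rpow_one]
      congr 2
      ring
    rw [e1]
    apply mul_le_mul_of_nonneg_left _ ht0.le
    have e3 : (t : ℝ) ^ (-(1 - 2 * θ)) = ((t : ℝ) * t) ^ (-((1 - 2 * θ) / 2)) := by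
      rw [Real.mul_rpow ht0.le ht0.le, ← Real.rpow_add ht0]
      congr 1
      ring
    rw [e3]
    exact Real.rpow_le_rpow_of_nonpos hn0 hsq (by linarith)
  have hp : (0 : ℝ) ≤ (n : ℝ) ^ (-((1 - 2 * θ) / 2)) := by positivity
  calc (((bsz θ n t) ^ 2 : ℕ) : ℝ) ≤ t * (n : ℝ) ^ (-((1 - 2 * θ) / 2)) := hb2.trans hkey
    _ = 2 * (n : ℝ) ^ (-((1 - 2 * θ) / 2)) * (t / 2) := by ring
    _ ≤ _ := mul_le_mul_of_nonneg_left hsub (by positivity)

theorem quot_bound {θ : ℝ} (h0 : 0 < θ) (h1 : θ < 1 / 2) {n t : ℕ} (hn : 0 < n) (htn : t ≤ n) :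
    ((t / bsz θ n t : ℕ) : ℝ) ≤ 2 * (n : ℝ) ^ (1 - θ) := by
  have hn1 : (1 : ℝ) ≤ n := by exact_mod_cast hn
  have hpow : (1 : ℝ) ≤ (n : ℝ) ^ (1 - θ) := Real.one_le_rpow hn1 (by linarith)
  by_cases ht : t * t < n
  · have hb : bsz θ n t = 1 := by unfold bsz; rw [if_pos ht]
    rw [hb, Nat.div_one]
    have h2 : (t : ℝ) ^ 2 ≤ n := by
      rw [pow_two]
      exact_mod_cast ht.le
    have h3 : (t : ℝ) ≤ (n : ℝ) ^ ((1 : ℝ) / 2) := by
      rw [← Real.sqrt_eq_rpow]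
      exact Real.le_sqrt_of_sq_le h2
    have h4 : (n : ℝ) ^ ((1 : ℝ) / 2) ≤ (n : ℝ) ^ (1 - θ) :=
      Real.rpow_le_rpow_of_exponent_le hn1 (by linarith)
    linarith
  · have ht1 : 1 ≤ t := by
      rcases Nat.eq_zero_or_pos t with h2 | h2
      · rw [h2] at ht; omega
      · exact h2
    have ht1R : (1 : ℝ) ≤ t := by exact_mod_cast ht1
    have ht0 : (0 : ℝ) < t := by linarith
    have hx : (1 : ℝ) ≤ (t : ℝ) ^ θ := Real.one_le_rpow ht1R h0.le
    have hfl : (t : ℝ) ^ θ / 2 ≤ ((bsz θ n t : ℕ) : ℝ) := by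
      unfold bsz
      rw [if_neg ht]
      have h2 := Nat.lt_floor_add_one ((t : ℝ) ^ θ)
      have h3 : (1 : ℝ) ≤ ((⌊(t : ℝ) ^ θ⌋₊ : ℕ) : ℝ) := by
        have : 1 ≤ ⌊(t : ℝ) ^ θ⌋₊ := (Nat.one_le_floor_iff _).2 hx
        exact_mod_cast this
      linarith
    have hpos : (0 : ℝ) < (t : ℝ) ^ θ / 2 := by positivity
    calc ((t / bsz θ n t : ℕ) : ℝ) ≤ (t : ℝ) / ((bsz θ n t : ℕ) : ℝ) := Nat.cast_div_le
      _ ≤ (t : ℝ) / ((t : ℝ) ^ θ / 2) := div_le_div_of_nonneg_left ht0.le hpos hfl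
      _ = 2 * (t : ℝ) ^ (1 - θ) := by
          rw [Real.rpow_sub ht0, Real.rpow_one]
          field_simp
      _ ≤ 2 * (n : ℝ) ^ (1 - θ) := by
          have : (t : ℝ) ^ (1 - θ) ≤ (n : ℝ) ^ (1 - θ) :=
            Real.rpow_le_rpow ht0.le (by exact_mod_cast htn) (by linarith)
          linarith

theorem SS_bound {θ : ℝ} (h0 : 0 < θ) (h1 : θ < 1 / 2) {n : ℕ} (hn : 0 < n) (D : Finset (Fin n))
    (k : ℕ) : ((SS D (bsz θ n) k : ℕ) : ℝ) ≤ 4 * k * (n : ℝ) ^ (1 - θ) := by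
  have hn1 : (1 : ℝ) ≤ n := by exact_mod_cast hn
  have hpow : (1 : ℝ) ≤ (n : ℝ) ^ (1 - θ) := Real.one_le_rpow hn1 (by linarith)
  unfold SS
  push_cast
  calc ∑ b ∈ range k, (((ts D b / bsz θ n (ts D b) : ℕ) : ℝ) + 2)
      ≤ ∑ _b ∈ range k, (4 * (n : ℝ) ^ (1 - θ)) := by
        apply sum_le_sum
        intro b _
        have htn : ts D b ≤ n := by
          unfold ts
          exact (card_le_univ _).trans (by simp)
        have := quot_bound h0 h1 hn htn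
        linarith
    _ = 4 * k * (n : ℝ) ^ (1 - θ) := by
        rw [sum_const, card_range, nsmul_eq_mul]
        ring

/-- the perfect matchings of interval chromatic number `k` -/
def cls (n k : ℕ) : Set (SimpleGraph (Fin n)) := {M | IsPM M ∧ intervalChromatic M = k}

/-- those with large ordered Ramsey number against the triangle -/
def big (n k : ℕ) (b : ℝ) : Set (SimpleGraph (Fin n)) :=
  {M | (IsPM M ∧ intervalChromatic M = k) ∧
    b < (orderedRamsey M (⊤ : SimpleGraph (Fin 3)) : ℝ)}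

open Classical in
theorem big_le (k : ℕ) (hk : 1 ≤ k) (θ : ℝ) (h0 : 0 < θ) (h1 : θ < 1 / 2) (m n : ℕ)
    (hm : 2 ≤ m) (hnm : (2 * m + 2) * (2 * m + 2) < n) :
    ((big n k (512 * k * m * (n : ℝ) ^ (2 - θ))).ncard : ℝ) ≤
      (n : ℝ) ^ 2 * (2 * (n : ℝ) ^ (-((1 - 2 * θ) / 2))) ^ m * ((cls n k).ncard : ℝ) := by
  have hn : 0 < n := by omega
  set η : ℝ := (2 * (n : ℝ) ^ (-((1 - 2 * θ) / 2))) ^ m with hη
  have hη0 : 0 ≤ η := by positivity
  let 𝓓 : Finset (Finset (Fin n)) := (univ : Finset (Fin n)).powersetCard (k - 1)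
  let 𝓒 : Finset (Fin n) → Finset (SimpleGraph (Fin n)) := fun D =>
    univ.filter (fun M => IsPM M ∧ Good D M)
  -- the total count
  have htotal : (cls n k).ncard = ∑ D ∈ 𝓓, (𝓒 D).card := by
    have hdisj : ((𝓓 : Finset (Finset (Fin n))) : Set (Finset (Fin n))).PairwiseDisjoint 𝓒 := by
      intro D _ D' _ hne
      rw [Function.onFun, Finset.disjoint_left]
      intro M hM hM'
      simp only [𝓒, mem_filter, mem_univ, true_and] at hM hM'
      exact hne (good_unique hM.2 hM'.2)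
    rw [← card_biUnion hdisj, ← Set.ncard_coe_finset]
    congr 1
    ext M
    simp only [cls, Set.mem_ofPred_eq, coe_biUnion, Set.mem_iUnion, mem_coe, 𝓒, 𝓓, mem_filter,
      mem_univ, true_and, mem_powersetCard, subset_univ, exists_prop]
    constructor
    · rintro ⟨h2, h3⟩
      obtain ⟨D, hD⟩ := exists_good M
      have h4 := good_card hn hD
      exact ⟨D, by omega, h2, hD⟩
    · rintro ⟨D, hD, h2, h3⟩
      have h4 := good_card hn h3
      exact ⟨h2, by omega⟩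
  -- the bad ones
  have hbad : ∀ D ∈ 𝓓, (((𝓒 D).filter (Bad D (bsz θ n) m)).card : ℝ) ≤
      (n : ℝ) ^ 2 * η * ((𝓒 D).card : ℝ) := by
    intro D _
    refine card_bad D (bsz θ n) (bsz_pos h0 hn) m hm (Nat.sqrt (n - 1) + 1) ?_ ?_ η hη0 ?_
      (𝓒 D) ?_ ?_
    · intro t ht
      rw [thr hn] at ht
      unfold bsz
      rw [if_pos ht]
    · intro t t' ht htt
      have h2 : ¬ t * t < n := fun h => absurd ((thr hn t).2 h) (not_lt.2 ht)
      exact bsz_mono h0 h2 htt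
    · intro t ht _
      have h2 : ¬ t * t < n := fun h => absurd ((thr hn t).2 h) (not_lt.2 ht)
      exact bsz_bound h0 h1 hn h2 hnm
    · intro M hM
      simp only [𝓒, mem_filter, mem_univ, true_and] at hM
      exact hM.1.atMostOne
    · intro M hM a b ha hb hab
      simp only [𝓒, mem_filter, mem_univ, true_and] at hM ⊢
      exact ⟨hM.1.sw a b, good_swap hM.2 ha hb hab⟩
  have hsub : big n k (512 * k * m * (n : ℝ) ^ (2 - θ)) ⊆
      ((𝓓.biUnion (fun D => (𝓒 D).filter (Bad D (bsz θ n) m)) :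
        Finset (SimpleGraph (Fin n))) : Set (SimpleGraph (Fin n))) := by
    rintro M ⟨⟨hPM, hchi⟩, hbig⟩
    obtain ⟨D, hD⟩ := exists_good M
    have h4 := good_card hn hD
    have hDk : D.card = k - 1 := by omega
    rw [coe_biUnion, Set.mem_iUnion₂]
    refine ⟨D, ?_, ?_⟩
    · rw [mem_coe, mem_powersetCard]
      exact ⟨subset_univ _, hDk⟩
    · rw [mem_coe, mem_filter]
      refine ⟨by simp only [𝓒, mem_filter, mem_univ, true_and]; exact ⟨hPM, hD⟩, ?_⟩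
      by_contra hb
      have h5 := ramsey_of_not_bad D (bsz θ n) m hm hPM.atMostOne hn hD hb
      rw [show D.card + 1 = k by omega] at h5
      have h6 : (orderedRamsey M (⊤ : SimpleGraph (Fin 3)) : ℝ) ≤
          ((SS D (bsz θ n) k : ℕ) : ℝ) * (128 * m * n) := by exact_mod_cast h5
      have h7 := SS_bound h0 h1 hn D k
      have hn0 : (0 : ℝ) < n := by exact_mod_cast hn
      have h8 : (n : ℝ) ^ (1 - θ) * n = (n : ℝ) ^ (2 - θ) := by
        have : (2 - θ) = (1 - θ) + 1 := by ring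
        rw [this, Real.rpow_add hn0, Real.rpow_one]
      have h9 : ((SS D (bsz θ n) k : ℕ) : ℝ) * (128 * m * n) ≤
          512 * k * m * (n : ℝ) ^ (2 - θ) := by
        calc ((SS D (bsz θ n) k : ℕ) : ℝ) * (128 * m * n) ≤
            (4 * k * (n : ℝ) ^ (1 - θ)) * (128 * m * n) :=
              mul_le_mul_of_nonneg_right h7 (by positivity)
          _ = 512 * k * m * ((n : ℝ) ^ (1 - θ) * n) := by ring
          _ = _ := by rw [h8]
      linarith
  have h2 : (big n k (512 * k * m * (n : ℝ) ^ (2 - θ))).ncard ≤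
      ∑ D ∈ 𝓓, ((𝓒 D).filter (Bad D (bsz θ n) m)).card := by
    refine (Set.ncard_le_ncard hsub (Set.toFinite _)).trans ?_
    rw [Set.ncard_coe_finset]
    exact card_biUnion_le
  calc ((big n k (512 * k * m * (n : ℝ) ^ (2 - θ))).ncard : ℝ)
      ≤ ∑ D ∈ 𝓓, (((𝓒 D).filter (Bad D (bsz θ n) m)).card : ℝ) := by exact_mod_cast h2
    _ ≤ ∑ D ∈ 𝓓, (n : ℝ) ^ 2 * η * ((𝓒 D).card : ℝ) := sum_le_sum hbad
    _ = (n : ℝ) ^ 2 * η * ((cls n k).ncard : ℝ) := by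
        rw [htotal, ← mul_sum]
        push_cast
        rfl

/-- For fixed `k` and `θ < 1/2`, all but a vanishing proportion of the ordered matchings with
interval chromatic number `k` have ordered Ramsey number `O(n ^ (2 - θ))` against the triangle. -/
theorem almost_every (k : ℕ) (hk : 1 ≤ k) (θ : ℝ) (h0 : 0 < θ) (h1 : θ < 1 / 2) :
    ∃ C : ℝ, 0 < C ∧ ∀ δ : ℝ, 0 < δ → ∃ n₀ : ℕ, ∀ n ≥ n₀,
      ((big n k (C * (n : ℝ) ^ (2 - θ))).ncard : ℝ) ≤ δ * ((cls n k).ncard : ℝ) := by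
  set β : ℝ := (1 - 2 * θ) / 2 with hβ
  have hβ0 : 0 < β := by rw [hβ]; linarith
  set m : ℕ := ⌈4 / β⌉₊ + 2 with hm
  have hmβ : 4 ≤ β * m := by
    have h2 := Nat.le_ceil (4 / β)
    have h3 : (4 / β) ≤ m := by
      rw [hm]
      push_cast
      linarith
    rw [div_le_iff₀ hβ0] at h3
    linarith
  refine ⟨512 * k * m, by positivity, ?_⟩
  intro δ hδ
  obtain ⟨n₁, hn₁⟩ := exists_nat_ge ((2 : ℝ) ^ m / δ)
  refine ⟨max (max n₁ 1) ((2 * m + 2) * (2 * m + 2) + 1), ?_⟩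
  intro n hn
  have hn1 : n₁ ≤ n := le_trans (le_trans (le_max_left _ _) (le_max_left _ _)) hn
  have hnpos : 1 ≤ n := le_trans (le_trans (le_max_right _ _) (le_max_left _ _)) hn
  have hnm : (2 * m + 2) * (2 * m + 2) < n := lt_of_lt_of_le (Nat.lt_succ_self _)
    (le_trans (le_max_right _ _) hn)
  refine (big_le k hk θ h0 h1 m n (by omega) hnm).trans ?_
  apply mul_le_mul_of_nonneg_right _ (Nat.cast_nonneg _)
  have hn0 : (0 : ℝ) < n := by exact_mod_cast hnpos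
  have hn1R : (1 : ℝ) ≤ n := by exact_mod_cast hnpos
  have h2 : ((2 : ℝ) * (n : ℝ) ^ (-β)) ^ m ≤ 2 ^ m * (n : ℝ) ^ (-(4 : ℝ)) := by
    rw [mul_pow]
    apply mul_le_mul_of_nonneg_left _ (by positivity)
    rw [← Real.rpow_natCast, ← Real.rpow_mul hn0.le]
    apply Real.rpow_le_rpow_of_exponent_le hn1R
    linarith
  have h3 : (n : ℝ) ^ 2 * (n : ℝ) ^ (-(4 : ℝ)) ≤ 1 / n := by
    have h4 : (n : ℝ) ^ 2 * (n : ℝ) ^ (-(4 : ℝ)) = (n : ℝ) ^ (-(2 : ℝ)) := by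
      rw [← Real.rpow_natCast, ← Real.rpow_add hn0]
      norm_num
    rw [h4]
    have h5 : (n : ℝ) ^ (-(2 : ℝ)) ≤ (n : ℝ) ^ (-(1 : ℝ)) :=
      Real.rpow_le_rpow_of_exponent_le hn1R (by norm_num)
    rw [Real.rpow_neg_one] at h5
    rw [one_div]
    exact h5
  have h6 : (2 : ℝ) ^ m ≤ δ * n := by
    have h7 : (2 : ℝ) ^ m / δ ≤ n := hn₁.trans (by exact_mod_cast hn1)
    rw [div_le_iff₀ hδ] at h7
    linarith
  calc (n : ℝ) ^ 2 * ((2 : ℝ) * (n : ℝ) ^ (-β)) ^ m ≤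
      (n : ℝ) ^ 2 * (2 ^ m * (n : ℝ) ^ (-(4 : ℝ))) :=
        mul_le_mul_of_nonneg_left h2 (by positivity)
    _ = 2 ^ m * ((n : ℝ) ^ 2 * (n : ℝ) ^ (-(4 : ℝ))) := by ring
    _ ≤ 2 ^ m * (1 / n) := mul_le_mul_of_nonneg_left h3 (by positivity)
    _ ≤ δ := by
        rw [mul_one_div, div_le_iff₀ hn0]
        exact h6

end Pool.Agent.Q294.OM
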