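import Pool.Agent.Q294.OM.Defs

/-! Counting matchings with prescribed edges by switching. -/

set_option autoImplicit false

open Finset

namespace Pool.Agent.Q294.OM

/-- relabel by the transposition of `a` and `b` -/
def sw {n : ℕ} (a b : Fin n) (M : SimpleGraph (Fin n)) : SimpleGraph (Fin n) :=
  M.comap (Equiv.swap a b)

theorem sw_adj {n : ℕ} (a b : Fin n) (M : SimpleGraph (Fin n)) (x y : Fin n) :
    (sw a b M).Adj x y ↔ M.Adj (Equiv.swap a b x) (Equiv.swap a b y) := Iff.rfl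

theorem sw_sw {n : ℕ} (a b : Fin n) (M : SimpleGraph (Fin n)) : sw a b (sw a b M) = M := by
  ext x y
  simp [sw_adj]

/-- every vertex has at most one neighbour -/
def AtMostOne {n : ℕ} (M : SimpleGraph (Fin n)) : Prop :=
  ∀ v w w', M.Adj v w → M.Adj v w' → w = w'

open Classical in
theorem count_step {n m : ℕ} (𝓒 : Finset (SimpleGraph (Fin n))) (L : Finset (Fin n))
    (h1 : ∀ M ∈ 𝓒, AtMostOne M) (hsw : ∀ M ∈ 𝓒, ∀ a ∈ L, ∀ b ∈ L, sw a b M ∈ 𝓒)
    (x y : Fin m → Fin n) (hx : Function.Injective x) (hxL : ∀ i, x i ∈ L) (hyL : ∀ i, y i ∉ L)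
    (j : ℕ) (hj : j < m) :
    (𝓒.filter (fun M => ∀ i : Fin m, (i : ℕ) < j + 1 → M.Adj (x i) (y i))).card * (L.card - m) ≤
      (𝓒.filter (fun M => ∀ i : Fin m, (i : ℕ) < j → M.Adj (x i) (y i))).card := by
  have hL : L.card - m ≤ (L \ univ.image x).card := by
    have h2 : (univ.image x).card ≤ m := by
      refine card_image_le.trans ?_
      simp
    have h3 := le_card_sdiff (univ.image x) L
    omega
  refine (Nat.mul_le_mul_left _ hL).trans ?_
  rw [← card_product]
  apply card_le_card_of_injOn (fun p => sw (x ⟨j, hj⟩) p.2 p.1)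
  · rintro ⟨M, x'⟩ hp
    simp only [coe_product, Set.mem_prod, mem_coe, mem_filter, mem_sdiff, mem_image, mem_univ,
      true_and, not_exists] at hp
    obtain ⟨⟨hM, hMadj⟩, hx'L, hx'⟩ := hp
    simp only [coe_filter, Set.mem_ofPred_eq]
    refine ⟨hsw M hM _ (hxL _) _ hx'L, ?_⟩
    intro i hi
    rw [sw_adj, Equiv.swap_apply_of_ne_of_ne, Equiv.swap_apply_of_ne_of_ne]
    · exact hMadj i (by omega)
    · intro h
      exact hyL i (h ▸ hxL _)
    · intro h
      exact hyL i (h ▸ hx'L)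
    · intro h
      have := hx h
      rw [Fin.ext_iff] at this
      simp only at this
      omega
    · intro h
      exact hx' i h
  · rintro ⟨M, a⟩ hp ⟨M', a'⟩ hp' heq
    simp only [coe_product, Set.mem_prod, mem_coe, mem_filter, mem_sdiff, mem_image, mem_univ,
      true_and, not_exists] at hp hp'
    simp only at heq
    have e1 : (sw (x ⟨j, hj⟩) a M).Adj (y ⟨j, hj⟩) a := by
      rw [sw_adj, Equiv.swap_apply_right, Equiv.swap_apply_of_ne_of_ne]
      · exact (hp.1.2 ⟨j, hj⟩ (by simp)).symm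
      · intro h
        exact hyL _ (h ▸ hxL _)
      · intro h
        exact hyL _ (h ▸ hp.2.1)
    have e2 : (sw (x ⟨j, hj⟩) a' M').Adj (y ⟨j, hj⟩) a' := by
      rw [sw_adj, Equiv.swap_apply_right, Equiv.swap_apply_of_ne_of_ne]
      · exact (hp'.1.2 ⟨j, hj⟩ (by simp)).symm
      · intro h
        exact hyL _ (h ▸ hxL _)
      · intro h
        exact hyL _ (h ▸ hp'.2.1)
    have hone : AtMostOne (sw (x ⟨j, hj⟩) a M) :=
      h1 _ (hsw M hp.1.1 _ (hxL _) _ hp.2.1)
    rw [← heq] at e2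
    have haa : a = a' := hone _ _ _ e1 e2
    subst haa
    have : M = M' := by
      rw [← sw_sw (x ⟨j, hj⟩) a M, heq, sw_sw]
    rw [this]

open Classical in
theorem count_prescribed {n m : ℕ} (𝓒 : Finset (SimpleGraph (Fin n))) (L : Finset (Fin n))
    (h1 : ∀ M ∈ 𝓒, AtMostOne M) (hsw : ∀ M ∈ 𝓒, ∀ a ∈ L, ∀ b ∈ L, sw a b M ∈ 𝓒)
    (x y : Fin m → Fin n) (hx : Function.Injective x) (hxL : ∀ i, x i ∈ L)
    (hyL : ∀ i, y i ∉ L) :
    (𝓒.filter (fun M => ∀ i : Fin m, M.Adj (x i) (y i))).card * (L.card - m) ^ m ≤ 𝓒.card := by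
  have key : ∀ j, j ≤ m →
      (𝓒.filter (fun M => ∀ i : Fin m, (i : ℕ) < j → M.Adj (x i) (y i))).card *
        (L.card - m) ^ j ≤ 𝓒.card := by
    intro j
    induction j with
    | zero =>
      intro _
      rw [pow_zero, mul_one]
      exact card_filter_le _ _
    | succ j ih =>
      intro hj
      have h2 := count_step 𝓒 L h1 hsw x y hx hxL hyL j (by omega)
      calc _ = ((𝓒.filter (fun M => ∀ i : Fin m, (i : ℕ) < j + 1 → M.Adj (x i) (y i))).card *
            (L.card - m)) * (L.card - m) ^ j := by ring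
        _ ≤ _ := Nat.mul_le_mul_right _ h2
        _ ≤ _ := ih (by omega)
  have h3 := key m le_rfl
  have h4 : (𝓒.filter (fun M => ∀ i : Fin m, (i : ℕ) < m → M.Adj (x i) (y i))) =
      (𝓒.filter (fun M => ∀ i : Fin m, M.Adj (x i) (y i))) := by
    apply filter_congr
    intro M _
    exact ⟨fun h i => h i i.2, fun h i _ => h i⟩
  rw [h4] at h3
  exact h3

/-- edges between two sets, as ordered pairs -/
noncomputable def eb {n : ℕ} (M : SimpleGraph (Fin n)) (A B : Finset (Fin n)) :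
    Finset (Fin n × Fin n) := by
  classical exact (A ×ˢ B).filter (fun p => M.Adj p.1 p.2)

theorem mem_eb {n : ℕ} {M : SimpleGraph (Fin n)} {A B : Finset (Fin n)} {p : Fin n × Fin n} :
    p ∈ eb M A B ↔ (p.1 ∈ A ∧ p.2 ∈ B) ∧ M.Adj p.1 p.2 := by
  classical
  unfold eb
  rw [mem_filter, mem_product]

open Classical in
/-- few matchings have many edges between two given sets -/
theorem count_many {n m : ℕ} (𝓒 : Finset (SimpleGraph (Fin n))) (L A B : Finset (Fin n))
    (h1 : ∀ M ∈ 𝓒, AtMostOne M) (hsw : ∀ M ∈ 𝓒, ∀ a ∈ L, ∀ b ∈ L, sw a b M ∈ 𝓒)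
    (hA : A ⊆ L) (hB : Disjoint B L) :
    (𝓒.filter (fun M => m ≤ (eb M A B).card)).card * (L.card - m) ^ m ≤
      (A.card * B.card) ^ m * 𝓒.card := by
  let Z : Finset (Fin m → Fin n × Fin n) :=
    (Fintype.piFinset (fun _ => A ×ˢ B)).filter (fun z => Function.Injective (fun i => (z i).1))
  have hZ : Z.card ≤ (A.card * B.card) ^ m := by
    refine (card_filter_le _ _).trans ?_
    rw [Fintype.card_piFinset]
    simp
  have hsub : 𝓒.filter (fun M => m ≤ (eb M A B).card) ⊆
      Z.biUnion (fun z => 𝓒.filter (fun M => ∀ i : Fin m, M.Adj (z i).1 (z i).2)) := by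
    intro M hM
    rw [mem_filter] at hM
    obtain ⟨T, hT, hcard⟩ := exists_subset_card_eq hM.2
    let e := (T.equivFinOfCardEq hcard).symm
    rw [mem_biUnion]
    have hmem : ∀ i : Fin m, ((e i : Fin n × Fin n)) ∈ eb M A B := fun i => hT (e i).2
    refine ⟨fun i => (e i : Fin n × Fin n), ?_, ?_⟩
    · rw [mem_filter, Fintype.mem_piFinset]
      refine ⟨fun i => ?_, ?_⟩
      · have := mem_eb.1 (hmem i)
        rw [mem_product]
        exact this.1
      · intro i j hij
        simp only at hij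
        have hi := (mem_eb.1 (hmem i)).2
        have hj := (mem_eb.1 (hmem j)).2
        rw [← hij] at hj
        have h2 := h1 M hM.1 _ _ _ hi hj
        have h3 : (e i : Fin n × Fin n) = e j := Prod.ext hij h2
        exact e.injective (Subtype.ext h3)
    · rw [mem_filter]
      exact ⟨hM.1, fun i => (mem_eb.1 (hmem i)).2⟩
  have hz : ∀ z ∈ Z, (𝓒.filter (fun M => ∀ i : Fin m, M.Adj (z i).1 (z i).2)).card *
      (L.card - m) ^ m ≤ 𝓒.card := by
    intro z hz
    rw [mem_filter, Fintype.mem_piFinset] at hz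
    refine count_prescribed 𝓒 L h1 hsw (fun i => (z i).1) (fun i => (z i).2) hz.2 ?_ ?_
    · intro i
      exact hA (mem_product.1 (hz.1 i)).1
    · intro i
      exact Finset.disjoint_left.1 hB (mem_product.1 (hz.1 i)).2
  calc (𝓒.filter (fun M => m ≤ (eb M A B).card)).card * (L.card - m) ^ m
      ≤ (∑ z ∈ Z, (𝓒.filter (fun M => ∀ i : Fin m, M.Adj (z i).1 (z i).2)).card) *
        (L.card - m) ^ m := Nat.mul_le_mul_right _ ((card_le_card hsub).trans card_biUnion_le)
    _ = ∑ z ∈ Z, (𝓒.filter (fun M => ∀ i : Fin m, M.Adj (z i).1 (z i).2)).card *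
        (L.card - m) ^ m := sum_mul _ _ _
    _ ≤ ∑ _z ∈ Z, 𝓒.card := sum_le_sum hz
    _ = Z.card * 𝓒.card := by rw [sum_const, smul_eq_mul]
    _ ≤ _ := Nat.mul_le_mul_right _ hZ

end Pool.Agent.Q294.OM
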