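import Mathlib

/-! Ordered matchings, interval chromatic number, ordered Ramsey numbers: definitions. -/

set_option autoImplicit false

namespace Pool.Agent.Q294.OM

/-- ordered matchings on the vertex set `Fin n`: every vertex has exactly one neighbour -/
def IsPM {n : ℕ} (M : SimpleGraph (Fin n)) : Prop := ∀ v, ∃! w, M.Adj v w

/-- the vertex order can be cut into `k` (possibly empty) intervals, none of which contains both
ends of an edge -/
def CutInto {n : ℕ} (M : SimpleGraph (Fin n)) (k : ℕ) : Prop :=
  ∃ p : Fin n → Fin k, Monotone p ∧ ∀ x y, M.Adj x y → p x ≠ p y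

/-- the interval chromatic number -/
noncomputable def intervalChromatic {n : ℕ} (M : SimpleGraph (Fin n)) : ℕ :=
  sInf {k | CutInto M k}

/-- ordered containment: `G` contains an order-preserving copy of `H` -/
def OrdContains {N n : ℕ} (G : SimpleGraph (Fin N)) (H : SimpleGraph (Fin n)) : Prop :=
  ∃ f : Fin n → Fin N, StrictMono f ∧ ∀ x y, H.Adj x y → G.Adj (f x) (f y)

/-- the ordered Ramsey number: the least `N` such that for every red graph `R` on `Fin N` (with
blue complement) there is a red ordered copy of `G` or a blue ordered copy of `H` -/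
noncomputable def orderedRamsey {n m : ℕ} (G : SimpleGraph (Fin n)) (H : SimpleGraph (Fin m)) :
    ℕ :=
  sInf {N | ∀ R : SimpleGraph (Fin N), OrdContains R G ∨ OrdContains Rᶜ H}

end Pool.Agent.Q294.OM
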