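import Pool.Agent.Helper208.Rainbow.LLL

/-! Embedding an ordered graph avoiding the edges of a triangle-free graph, by the local lemma. -/

set_option autoImplicit false

open Finset

namespace Pool.Agent.Q294.OM

open Pool.Agent.Helper208.Rainbow

/-- Either the desired embedding exists or all degrees of `B` are below `n`. -/
theorem degree_lt {n N : ℕ} (M : SimpleGraph (Fin n)) (B : SimpleGraph (Fin N))
    [DecidableRel B.Adj]
    (hB : ∀ a b c, B.Adj a b → B.Adj b c → ¬ B.Adj a c)
    (hno : ¬ ∃ f : Fin n → Fin N, StrictMono f ∧ ∀ i j, M.Adj i j → ¬ B.Adj (f i) (f j))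
    (v : Fin N) : (univ.filter (fun u => B.Adj v u)).card < n := by
  by_contra hcon
  push Not at hcon
  apply hno
  obtain ⟨T, hT, hcard⟩ := exists_subset_card_eq hcon
  refine ⟨T.orderEmbOfFin hcard, (T.orderEmbOfFin hcard).strictMono, ?_⟩
  intro i j _ hadj
  have h1 := hT (T.orderEmbOfFin_mem hcard i)
  have h2 := hT (T.orderEmbOfFin_mem hcard j)
  rw [mem_filter] at h1 h2
  exact hB v _ _ h1.2 hadj h2.2

/-- index inside the group -/
def idx {n G : ℕ} (g : Fin n → Fin G) (x : Fin n) : ℕ :=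
  (univ.filter (fun y => y < x ∧ g y = g x)).card

theorem idx_lt {n G : ℕ} (g : Fin n → Fin G) (s : ℕ)
    (hs : ∀ P, (univ.filter (fun x => g x = P)).card ≤ s) (x : Fin n) : idx g x < s := by
  refine lt_of_lt_of_le ?_ (hs (g x))
  apply card_lt_card
  refine ⟨?_, ?_⟩
  · intro y hy
    rw [mem_filter] at hy ⊢
    exact ⟨hy.1, hy.2.2⟩
  · intro h
    have : x ∈ univ.filter (fun y => y < x ∧ g y = g x) := h (by simp)
    rw [mem_filter] at this
    exact lt_irrefl x this.2.1

theorem idx_mono {n G : ℕ} (g : Fin n → Fin G) {x y : Fin n} (hxy : x < y) (hg : g x = g y) :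
    idx g x < idx g y := by
  apply card_lt_card
  refine ⟨?_, ?_⟩
  · intro z hz
    rw [mem_filter] at hz ⊢
    exact ⟨hz.1, hz.2.1.trans hxy, hz.2.2.trans hg⟩
  · intro h
    have : x ∈ univ.filter (fun z => z < x ∧ g z = g x) := h (by
      rw [mem_filter]
      exact ⟨mem_univ _, hxy, hg⟩)
    rw [mem_filter] at this
    exact lt_irrefl x this.2.1

/-- position of `x` when the group `P` is shifted by `ω P` -/
def pos {n G u : ℕ} (g : Fin n → Fin G) (w : ℕ) (ω : Fin G → Fin u) (x : Fin n) : ℕ :=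
  (g x : ℕ) * w + (ω (g x) : ℕ) + idx g x

open Classical in
theorem embed {n N G w c s : ℕ} (M : SimpleGraph (Fin n)) (g : Fin n → Fin G) (hg : Monotone g)
    (hs : ∀ P, (univ.filter (fun x => g x = P)).card ≤ s)
    (hin : ∀ x y, M.Adj x y → g x ≠ g y)
    (hc : ∀ P Q, (univ.filter (fun p : Fin n × Fin n =>
      M.Adj p.1 p.2 ∧ g p.1 = P ∧ g p.2 = Q)).card ≤ c)
    (hw : 128 * c * n ≤ w) (hws : 2 * s ≤ w) (hw0 : 0 < w) (hN : G * w ≤ N)
    (B : SimpleGraph (Fin N)) (hB : ∀ a b c, B.Adj a b → B.Adj b c → ¬ B.Adj a c) :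
    ∃ f : Fin n → Fin N, StrictMono f ∧ ∀ i j, M.Adj i j → ¬ B.Adj (f i) (f j) := by
  by_contra hno
  have hdeg := degree_lt M B hB hno
  apply hno
  -- the shifts
  set u := w - s with hu
  have hu2 : w ≤ 2 * u := by omega
  have hu0 : 0 < u := by omega
  have hne : Nonempty (Fin G → Fin u) := ⟨fun _ => ⟨0, hu0⟩⟩
  have hposlt : ∀ (ω : Fin G → Fin u) x, pos g w ω x < G * w := by
    intro ω x
    have h1 := idx_lt g s hs x
    have h2 := (ω (g x)).2
    have h3 : ((g x : ℕ) + 1) * w ≤ G * w := Nat.mul_le_mul_right _ (g x).2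
    unfold pos
    rw [add_mul] at h3
    omega
  have hposN : ∀ (ω : Fin G → Fin u) x, pos g w ω x < N := fun ω x =>
    lt_of_lt_of_le (hposlt ω x) hN
  let F : (Fin G → Fin u) → Fin n → Fin N := fun ω x => ⟨pos g w ω x, hposN ω x⟩
  have hwin : ∀ (ω : Fin G → Fin u) x, (g x : ℕ) * w ≤ pos g w ω x ∧
      pos g w ω x < ((g x : ℕ) + 1) * w := by
    intro ω x
    have h1 := idx_lt g s hs x
    have h2 := (ω (g x)).2
    unfold pos
    rw [add_mul]
    omega
  have hmono : ∀ ω, StrictMono (F ω) := by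
    intro ω x y hxy
    show pos g w ω x < pos g w ω y
    rcases lt_or_eq_of_le (hg hxy.le) with h | h
    · have h1 : ((g x : ℕ) + 1) * w ≤ (g y : ℕ) * w := Nat.mul_le_mul_right _ h
      exact lt_of_lt_of_le (hwin ω x).2 (h1.trans (hwin ω y).1)
    · have h1 := idx_mono g hxy h
      unfold pos
      rw [h]
      omega
  -- windows and edges between them
  let W : Fin G → Finset (Fin N) := fun P =>
    univ.filter (fun v : Fin N => (P : ℕ) * w ≤ v ∧ (v : ℕ) < ((P : ℕ) + 1) * w)
  have hWcard : ∀ P, (W P).card ≤ w := by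
    intro P
    have : (W P).map Fin.valEmbedding ⊆ Finset.Ico ((P : ℕ) * w) (((P : ℕ) + 1) * w) := by
      intro v hv
      rw [mem_map] at hv
      obtain ⟨v', hv', rfl⟩ := hv
      rw [mem_filter] at hv'
      rw [Finset.mem_Ico]
      exact hv'.2
    have h2 := card_le_card this
    rw [card_map, Nat.card_Ico, add_mul] at h2
    omega
  let b : Fin G → Fin G → ℕ := fun P Q =>
    ((W P ×ˢ W Q).filter (fun p => B.Adj p.1 p.2)).card
  have hbsum : ∀ P, ∑ Q, b P Q ≤ w * n := by
    intro P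
    have h1 : ∀ Q, b P Q = ∑ v ∈ W P, ((W Q).filter (fun u => B.Adj v u)).card := by
      intro Q
      show ((W P ×ˢ W Q).filter (fun p => B.Adj p.1 p.2)).card = _
      rw [card_filter, sum_product]
      refine sum_congr rfl fun v _ => ?_
      rw [card_filter]
    simp_rw [h1]
    rw [sum_comm]
    have h2 : ∀ v ∈ W P, ∑ Q, ((W Q).filter (fun u => B.Adj v u)).card ≤ n := by
      intro v _
      have hdisj : ((univ : Finset (Fin G)) : Set (Fin G)).PairwiseDisjoint
          (fun Q => (W Q).filter (fun u => B.Adj v u)) := by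
        intro Q _ Q' _ hQQ'
        rw [Function.onFun, Finset.disjoint_left]
        intro z hz hz'
        rw [mem_filter] at hz hz'
        have h3 := (mem_filter.1 hz.1).2
        have h4 := (mem_filter.1 hz'.1).2
        apply hQQ'
        apply Fin.ext
        by_contra hne'
        rcases lt_or_gt_of_ne hne' with h | h
        · have h5 : ((Q : ℕ) + 1) * w ≤ (Q' : ℕ) * w := Nat.mul_le_mul_right _ h
          omega
        · have h5 : ((Q' : ℕ) + 1) * w ≤ (Q : ℕ) * w := Nat.mul_le_mul_right _ h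
          omega
      rw [← card_biUnion hdisj]
      refine (card_le_card ?_).trans (hdeg v).le
      intro z hz
      rw [mem_biUnion] at hz
      obtain ⟨Q, _, hz⟩ := hz
      rw [mem_filter] at hz ⊢
      exact ⟨mem_univ _, hz.2⟩
    calc ∑ v ∈ W P, ∑ Q, ((W Q).filter (fun u => B.Adj v u)).card ≤ ∑ _v ∈ W P, n :=
          sum_le_sum h2
      _ = (W P).card * n := by rw [sum_const, smul_eq_mul]
      _ ≤ w * n := Nat.mul_le_mul_right _ (hWcard P)
  have hbsymm : ∀ P Q, b P Q = b Q P := by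
    intro P Q
    apply card_nbij' (fun p => (p.2, p.1)) (fun p => (p.2, p.1))
    · rintro ⟨x, y⟩ h
      simp only [coe_filter, mem_product, Set.mem_ofPred_eq] at h ⊢
      exact ⟨⟨h.1.2, h.1.1⟩, h.2.symm⟩
    · rintro ⟨x, y⟩ h
      simp only [coe_filter, mem_product, Set.mem_ofPred_eq] at h ⊢
      exact ⟨⟨h.1.2, h.1.1⟩, h.2.symm⟩
    · rintro ⟨x, y⟩ _
      rfl
    · rintro ⟨x, y⟩ _
      rfl
  -- bad events
  let A : Fin G × Fin G → Finset (Fin G → Fin u) := fun PQ =>
    univ.filter (fun ω => ∃ x y, M.Adj x y ∧ g x = PQ.1 ∧ g y = PQ.2 ∧ B.Adj (F ω x) (F ω y))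
  let S : Fin G × Fin G → Finset (Fin G) := fun PQ => {PQ.1, PQ.2}
  have hdep : ∀ PQ, DepOn (A PQ) (S PQ) := by
    rintro ⟨P, Q⟩ ω ω' h
    have hP := h P (by simp [S])
    have hQ := h Q (by simp [S])
    simp only [A, mem_filter, mem_univ, true_and]
    refine exists_congr fun x => exists_congr fun y => ?_
    refine and_congr_right fun _ => and_congr_right fun hx => and_congr_right fun hy => ?_
    have e1 : F ω x = F ω' x := by
      apply Fin.ext
      simp only [F, pos, hx, hP]
    have e2 : F ω y = F ω' y := by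
      apply Fin.ext
      simp only [F, pos, hy, hQ]
    rw [e1, e2]
  have hcardA : ∀ PQ : Fin G × Fin G, (A PQ).card * u ^ 2 ≤
      c * b PQ.1 PQ.2 * Fintype.card (Fin G → Fin u) := by
    rintro ⟨P, Q⟩
    let E := univ.filter (fun p : Fin n × Fin n => M.Adj p.1 p.2 ∧ g p.1 = P ∧ g p.2 = Q)
    have hsub : A (P, Q) ⊆ E.biUnion (fun p => univ.filter (fun ω => B.Adj (F ω p.1) (F ω p.2))) := by
      intro ω hω
      simp only [A, mem_filter, mem_univ, true_and] at hω
      obtain ⟨x, y, h1, h2, h3, h4⟩ := hω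
      rw [mem_biUnion]
      refine ⟨(x, y), ?_, ?_⟩
      · simp only [E, mem_filter, mem_univ, true_and]
        exact ⟨h1, h2, h3⟩
      · simpa using h4
    have h1 : ∀ p ∈ E, (univ.filter (fun ω : Fin G → Fin u => B.Adj (F ω p.1) (F ω p.2))).card *
        u ^ 2 ≤ b P Q * Fintype.card (Fin G → Fin u) := by
      rintro ⟨x, y⟩ hp
      simp only [E, mem_filter, mem_univ, true_and] at hp
      obtain ⟨hadj, hx, hy⟩ := hp
      have hPQ : P ≠ Q := by
        rw [← hx, ← hy]
        exact hin x y hadj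
      have hpx : ∀ a : Fin u, (P : ℕ) * w + (a : ℕ) + idx g x < N := by
        intro a
        have := hposN (fun _ => a) x
        simpa [pos, hx] using this
      have hpy : ∀ a : Fin u, (Q : ℕ) * w + (a : ℕ) + idx g y < N := by
        intro a
        have := hposN (fun _ => a) y
        simpa [pos, hy] using this
      let R : Finset (Fin u × Fin u) := univ.filter (fun q =>
        B.Adj ⟨(P : ℕ) * w + (q.1 : ℕ) + idx g x, hpx q.1⟩
          ⟨(Q : ℕ) * w + (q.2 : ℕ) + idx g y, hpy q.2⟩)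
      have hR : R.card ≤ b P Q := by
        apply card_le_card_of_injOn (fun q : Fin u × Fin u =>
          ((⟨(P : ℕ) * w + (q.1 : ℕ) + idx g x, hpx q.1⟩ : Fin N),
            (⟨(Q : ℕ) * w + (q.2 : ℕ) + idx g y, hpy q.2⟩ : Fin N)))
        · rintro ⟨a, a'⟩ hq
          simp only [R, coe_filter, mem_univ, true_and, Set.mem_ofPred_eq] at hq
          simp only [coe_filter, mem_product, Set.mem_ofPred_eq]
          refine ⟨⟨?_, ?_⟩, hq⟩
          · simp only [W, mem_filter, mem_univ, true_and]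
            have := hwin (fun _ => a) x
            simpa [pos, hx] using this
          · simp only [W, mem_filter, mem_univ, true_and]
            have := hwin (fun _ => a') y
            simpa [pos, hy] using this
        · rintro ⟨a, a'⟩ _ ⟨d, d'⟩ _ heq
          simp only [Prod.mk.injEq, Fin.mk.injEq] at heq
          ext
          · show (a : ℕ) = d
            omega
          · show (a' : ℕ) = d'
            omega
      have hpair := pair_card (κ := Fin G) (α := Fin u) P Q hPQ R
      rw [Fintype.card_fin] at hpair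
      have heq : (univ.filter (fun ω : Fin G → Fin u => B.Adj (F ω x) (F ω y))) =
          (univ.filter (fun ω : Fin G → Fin u => (ω P, ω Q) ∈ R)) := by
        ext ω
        simp only [mem_filter, mem_univ, true_and, R, F, pos, hx, hy]
      show (univ.filter (fun ω : Fin G → Fin u => B.Adj (F ω x) (F ω y))).card * u ^ 2 ≤ _
      rw [heq, hpair]
      exact Nat.mul_le_mul_right _ hR
    calc (A (P, Q)).card * u ^ 2
        ≤ (∑ p ∈ E, (univ.filter (fun ω : Fin G → Fin u => B.Adj (F ω p.1) (F ω p.2))).card) *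
          u ^ 2 := Nat.mul_le_mul_right _ ((card_le_card hsub).trans card_biUnion_le)
      _ = ∑ p ∈ E, (univ.filter (fun ω : Fin G → Fin u => B.Adj (F ω p.1) (F ω p.2))).card *
          u ^ 2 := sum_mul _ _ _
      _ ≤ ∑ _p ∈ E, b P Q * Fintype.card (Fin G → Fin u) := sum_le_sum h1
      _ = E.card * (b P Q * Fintype.card (Fin G → Fin u)) := by rw [sum_const, smul_eq_mul]
      _ ≤ c * (b P Q * Fintype.card (Fin G → Fin u)) := Nat.mul_le_mul_right _ (hc P Q)
      _ = c * b P Q * Fintype.card (Fin G → Fin u) := by ring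
  -- the weights
  let xx : Fin G × Fin G → ℝ := fun PQ => 2 * c * b PQ.1 PQ.2 / (u : ℝ) ^ 2
  have huR : (0 : ℝ) < u := by exact_mod_cast hu0
  have hxx0 : ∀ PQ, 0 ≤ xx PQ := fun PQ => by positivity
  have hrow : ∀ P, ∑ Q, xx (P, Q) ≤ 1 / 16 := by
    intro P
    have h1 : ∑ Q, xx (P, Q) = 2 * c * ((∑ Q, b P Q : ℕ) : ℝ) / (u : ℝ) ^ 2 := by
      simp only [xx]
      rw [← sum_div, ← mul_sum]
      push_cast
      rfl
    rw [h1, div_le_iff₀ (by positivity)]
    have h2 : ((∑ Q, b P Q : ℕ) : ℝ) ≤ w * n := by exact_mod_cast hbsum P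
    have h3 : (w : ℝ) ≤ 2 * u := by exact_mod_cast hu2
    have h4 : (128 : ℝ) * c * n ≤ w := by exact_mod_cast hw
    have hw0R : (0 : ℝ) ≤ w := Nat.cast_nonneg w
    calc 2 * c * ((∑ Q, b P Q : ℕ) : ℝ) ≤ 2 * c * (w * n) := by gcongr
      _ = (2 * c * n) * w := by ring
      _ ≤ (w / 64) * w := by
          apply mul_le_mul_of_nonneg_right _ hw0R
          linarith
      _ ≤ 1 / 16 * u ^ 2 := by nlinarith
  have hcol : ∀ P, ∑ Q, xx (Q, P) ≤ 1 / 16 := by
    intro P
    have : ∀ Q, xx (Q, P) = xx (P, Q) := fun Q => by simp only [xx, hbsymm Q P]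
    simp_rw [this]
    exact hrow P
  have hxx1 : ∀ PQ, xx PQ ≤ 1 / 2 := by
    rintro ⟨P, Q⟩
    have := single_le_sum (f := fun Q => xx (P, Q)) (fun Q _ => hxx0 (P, Q)) (mem_univ Q)
    have h2 := hrow P
    have h3 : xx (P, Q) ≤ ∑ Q, xx (P, Q) := this
    linarith
  have hZ : ∀ k : Fin G, ∑ j ∈ univ.filter (fun j => k ∈ S j), xx j ≤ 1 / 8 := by
    intro k
    have hsub : univ.filter (fun j : Fin G × Fin G => k ∈ S j) ⊆
        (univ.image (fun Q => (k, Q))) ∪ (univ.image (fun Q => (Q, k))) := by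
      rintro ⟨P, Q⟩ h
      simp only [S, mem_filter, mem_univ, true_and, mem_insert, mem_singleton] at h
      rw [mem_union, mem_image, mem_image]
      rcases h with h | h
      · left; exact ⟨Q, mem_univ _, by rw [h]⟩
      · right; exact ⟨P, mem_univ _, by rw [h]⟩
    calc ∑ j ∈ univ.filter (fun j => k ∈ S j), xx j
        ≤ ∑ j ∈ (univ.image (fun Q => (k, Q))) ∪ (univ.image (fun Q => (Q, k))), xx j :=
          sum_le_sum_of_subset_of_nonneg hsub (fun i _ _ => hxx0 i)
      _ ≤ ∑ j ∈ (univ.image (fun Q => (k, Q))), xx j + ∑ j ∈ (univ.image (fun Q => (Q, k))), xx j := by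
          rw [← sum_union_inter]
          have := sum_nonneg (s := (univ.image (fun Q : Fin G => (k, Q))) ∩
            (univ.image (fun Q : Fin G => (Q, k)))) (f := xx) (fun i _ => hxx0 i)
          linarith
      _ = ∑ Q, xx (k, Q) + ∑ Q, xx (Q, k) := by
          rw [sum_image (by intro a _ b _ h; simpa using h),
            sum_image (by intro a _ b _ h; simpa using h)]
      _ ≤ 1 / 8 := by
          have := hrow k
          have := hcol k
          linarith
  obtain ⟨ω, hω⟩ := lll_exp A S hdep xx hxx0 hxx1 (1 / 8) hZ (by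
    rintro ⟨P, Q⟩
    have h1 : ((A (P, Q)).card : ℝ) * (u : ℝ) ^ 2 ≤
        c * b P Q * Fintype.card (Fin G → Fin u) := by exact_mod_cast hcardA (P, Q)
    have hScard : (((S (P, Q)).card : ℕ) : ℝ) ≤ 2 := by
      have : (S (P, Q)).card ≤ 2 := card_le_two
      exact_mod_cast this
    have hexp : (1 : ℝ) / 2 ≤ Real.exp (-(2 * (((S (P, Q)).card : ℝ) * (1 / 8)))) := by
      have h2 : (-(1 : ℝ) / 2) ≤ -(2 * (((S (P, Q)).card : ℝ) * (1 / 8))) := by linarith
      have h3 := Real.add_one_le_exp (-(1 : ℝ) / 2)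
      have h4 := Real.exp_le_exp.2 h2
      linarith
    have hΩ : (0 : ℝ) ≤ Fintype.card (Fin G → Fin u) := Nat.cast_nonneg _
    have h5 : ((A (P, Q)).card : ℝ) ≤ c * b P Q * Fintype.card (Fin G → Fin u) / (u : ℝ) ^ 2 := by
      rw [le_div_iff₀ (by positivity)]
      exact h1
    refine h5.trans ?_
    have h6 : c * b P Q * (Fintype.card (Fin G → Fin u) : ℝ) / (u : ℝ) ^ 2 =
        xx (P, Q) * (1 / 2) * Fintype.card (Fin G → Fin u) := by
      simp only [xx]
      ring
    rw [h6]
    apply mul_le_mul_of_nonneg_right _ hΩ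
    exact mul_le_mul_of_nonneg_left hexp (hxx0 _))
  refine ⟨F ω, hmono ω, ?_⟩
  intro i j hij hadj
  apply hω (g i, g j)
  simp only [A, mem_filter, mem_univ, true_and]
  exact ⟨i, j, hij, rfl, rfl, hadj⟩

end Pool.Agent.Q294.OM
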