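import Pool.Agent.Q294.OM.Count

/-! The greedy partition into independent intervals and the interval chromatic number. -/

set_option autoImplicit false

open Finset

namespace Pool.Agent.Q294.OM

/-- the number of the part containing `x` when the parts start at the elements of `D` -/
def part {n : ℕ} (D : Finset (Fin n)) (x : Fin n) : ℕ := (D.filter (fun d => d ≤ x)).card

theorem part_mono {n : ℕ} (D : Finset (Fin n)) {x y : Fin n} (h : x ≤ y) :
    part D x ≤ part D y := by
  apply card_le_card
  intro d hd
  rw [mem_filter] at hd ⊢
  exact ⟨hd.1, hd.2.trans h⟩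

theorem part_le {n : ℕ} (D : Finset (Fin n)) (x : Fin n) : part D x ≤ D.card :=
  card_filter_le _ _

/-- greedy partitions -/
def Good {n : ℕ} (D : Finset (Fin n)) (M : SimpleGraph (Fin n)) : Prop :=
  (∀ x y, M.Adj x y → part D x ≠ part D y) ∧
    ∀ d ∈ D, ∃ y, M.Adj d y ∧ part D y + 1 = part D d

theorem exists_good {n : ℕ} (M : SimpleGraph (Fin n)) : ∃ D, Good D M := by
  classical
  have key : ∀ j : ℕ, j ≤ n → ∃ D : Finset (Fin n), (∀ d ∈ D, (d : ℕ) < j) ∧
      (∀ x y : Fin n, (x : ℕ) < j → (y : ℕ) < j → M.Adj x y → part D x ≠ part D y) ∧
      ∀ d ∈ D, ∃ y, M.Adj d y ∧ part D y + 1 = part D d := by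
    intro j
    induction j with
    | zero =>
      intro _
      exact ⟨∅, by simp, by simp, by simp⟩
    | succ j ih =>
      intro hj
      obtain ⟨D, hD, h1, h2⟩ := ih (by omega)
      let v : Fin n := ⟨j, by omega⟩
      have hall : D.filter (fun d => d ≤ v) = D := by
        apply filter_true_of_mem
        intro d hd
        rw [Fin.le_def]
        exact (hD d hd).le
      have hpv : part D v = D.card := by unfold part; rw [hall]
      by_cases hv : ∃ y : Fin n, (y : ℕ) < j ∧ M.Adj v y ∧ part D y = D.card
      · obtain ⟨y, hyj, hadj, hy⟩ := hv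
        have hvD : v ∉ D := fun h => absurd (hD v h) (by simp [v])
        have hlow : ∀ x : Fin n, (x : ℕ) < j → part (insert v D) x = part D x := by
          intro x hx
          unfold part
          rw [filter_insert, if_neg]
          rw [not_le, Fin.lt_def]
          exact hx
        have hpv' : part (insert v D) v = D.card + 1 := by
          unfold part
          rw [filter_insert, if_pos le_rfl, hall, card_insert_of_notMem hvD]
        refine ⟨insert v D, ?_, ?_, ?_⟩
        · intro d hd
          rw [mem_insert] at hd
          rcases hd with rfl | hd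
          · simp [v]
          · have := hD d hd
            omega
        · intro a b ha hb hab
          have hcase : ∀ c : Fin n, (c : ℕ) < j + 1 → (c : ℕ) < j ∨ c = v := by
            intro c hc
            by_cases h : (c : ℕ) = j
            · right; exact Fin.ext h
            · left; omega
          rcases hcase a ha with ha' | ha' <;> rcases hcase b hb with hb' | hb'
          · rw [hlow a ha', hlow b hb']
            exact h1 a b ha' hb' hab
          · rw [hb', hlow a ha', hpv']
            have := part_le D a
            omega
          · rw [ha', hlow b hb', hpv']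
            have := part_le D b
            omega
          · rw [ha', hb'] at hab
            exact absurd hab (M.loopless.irrefl v)
        · intro d hd
          rw [mem_insert] at hd
          rcases hd with rfl | hd
          · refine ⟨y, hadj, ?_⟩
            rw [hlow y hyj, hpv', hy]
          · obtain ⟨z, hz1, hz2⟩ := h2 d hd
            refine ⟨z, hz1, ?_⟩
            have hzj : (z : ℕ) < j := by
              by_contra hcon
              have : d ≤ z := by
                rw [Fin.le_def]
                have := hD d hd
                omega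
              have := part_mono D this
              omega
            rw [hlow z hzj, hlow d (hD d hd)]
            exact hz2
      · push Not at hv
        refine ⟨D, fun d hd => (hD d hd).trans (Nat.lt_succ_self j), ?_, h2⟩
        intro a b ha hb hab
        have hcase : ∀ c : Fin n, (c : ℕ) < j + 1 → (c : ℕ) < j ∨ c = v := by
          intro c hc
          by_cases h : (c : ℕ) = j
          · right; exact Fin.ext h
          · left; omega
        rcases hcase a ha with ha' | ha' <;> rcases hcase b hb with hb' | hb'
        · exact h1 a b ha' hb' hab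
        · rw [hb', hpv]
          rw [hb'] at hab
          exact hv a ha' hab.symm
        · rw [ha', hpv]
          rw [ha'] at hab
          exact (hv b hb' hab).symm
        · rw [ha', hb'] at hab
          exact absurd hab (M.loopless.irrefl v)
  obtain ⟨D, _, h1, h2⟩ := key n le_rfl
  exact ⟨D, fun x y => h1 x y x.2 y.2, h2⟩

/-- the part number increases exactly at the elements of `D` -/
theorem part_pred {n : ℕ} (D : Finset (Fin n)) (x x' : Fin n) (hx : (x' : ℕ) + 1 = x) :
    (x ∈ D → part D x = part D x' + 1) ∧ (x ∉ D → part D x = part D x') := by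
  classical
  have hsub : ∀ d : Fin n, d ≤ x ↔ d ≤ x' ∨ d = x := by
    intro d
    rw [Fin.le_def, Fin.le_def, Fin.ext_iff]
    omega
  constructor
  · intro hxD
    have : D.filter (fun d => d ≤ x) = insert x (D.filter (fun d => d ≤ x')) := by
      ext d
      rw [mem_insert, mem_filter, mem_filter, hsub]
      constructor
      · rintro ⟨h1, h2 | h2⟩
        · exact Or.inr ⟨h1, h2⟩
        · exact Or.inl h2
      · rintro (h | h)
        · exact ⟨h ▸ hxD, Or.inr h⟩
        · exact ⟨h.1, Or.inl h.2⟩
    unfold part
    rw [this, card_insert_of_notMem]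
    rw [mem_filter, Fin.le_def]
    omega
  · intro hxD
    unfold part
    congr 1
    apply filter_congr
    intro d hd
    rw [hsub]
    constructor
    · rintro (h | h)
      · exact h
      · exact absurd (h ▸ hd) hxD
    · intro h
      exact Or.inl h

theorem part_zero {n : ℕ} (D : Finset (Fin n)) (x : Fin n) (hx : (x : ℕ) = 0) (hxD : x ∉ D) :
    part D x = 0 := by
  unfold part
  rw [card_eq_zero, filter_eq_empty_iff]
  intro d hd hdx
  rw [Fin.le_def, hx] at hdx
  apply hxD
  have : d = x := Fin.ext (by omega)
  exact this ▸ hd

theorem good_le {n : ℕ} {D : Finset (Fin n)} {M : SimpleGraph (Fin n)} (h : Good D M) {k : ℕ}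
    (p : Fin n → Fin k) (hp : Monotone p) (hadj : ∀ x y, M.Adj x y → p x ≠ p y) :
    ∀ j : ℕ, ∀ x : Fin n, (x : ℕ) = j → part D x ≤ p x := by
  intro j
  induction j using Nat.strong_induction_on with
  | _ j ih =>
    intro x hx
    by_cases hxD : x ∈ D
    · obtain ⟨y, hy1, hy2⟩ := h.2 x hxD
      have hyx : y < x := by
        by_contra hcon
        have := part_mono D (not_lt.1 hcon)
        omega
      have h1 := ih y (by rw [← hx]; exact hyx) y rfl
      have h2 : p y < p x := lt_of_le_of_ne (hp hyx.le) (hadj y x hy1.symm)
      rw [Fin.lt_def] at h2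
      omega
    · rcases Nat.eq_zero_or_pos j with h0 | h0
      · rw [part_zero D x (by omega) hxD]
        exact Nat.zero_le _
      · let x' : Fin n := ⟨j - 1, by have := x.2; omega⟩
        have hx' : (x' : ℕ) + 1 = x := by simp only [x']; omega
        rw [(part_pred D x x' hx').2 hxD]
        have h1 := ih (j - 1) (by omega) x' rfl
        have h2 : p x' ≤ p x := hp (by rw [Fin.le_def]; omega)
        rw [Fin.le_def] at h2
        omega

theorem good_card {n : ℕ} (hn : 0 < n) {D : Finset (Fin n)} {M : SimpleGraph (Fin n)}
    (h : Good D M) : intervalChromatic M = D.card + 1 := by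
  apply le_antisymm
  · apply Nat.sInf_le
    refine ⟨fun x => ⟨part D x, Nat.lt_succ_of_le (part_le D x)⟩, ?_, ?_⟩
    · intro x y hxy
      rw [Fin.le_def]
      exact part_mono D hxy
    · intro x y hxy heq
      exact h.1 x y hxy (congrArg Fin.val heq)
  · have hne : {k | CutInto M k}.Nonempty := by
      refine ⟨n, id, monotone_id, ?_⟩
      intro x y hxy
      exact hxy.ne
    obtain ⟨p, hp, hadj⟩ := Nat.sInf_mem hne
    let z : Fin n := ⟨n - 1, by omega⟩
    have h1 := good_le h p hp hadj _ z rfl
    have h2 : part D z = D.card := by
      unfold part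
      congr 1
      apply filter_true_of_mem
      intro d _
      rw [Fin.le_def]
      have := d.2
      simp only [z]
      omega
    have h3 := (p z).2
    unfold intervalChromatic
    omega

theorem good_unique {n : ℕ} {D D' : Finset (Fin n)} {M : SimpleGraph (Fin n)}
    (h : Good D M) (h' : Good D' M) : D = D' := by
  have key : ∀ j : ℕ, ∀ x : Fin n, (x : ℕ) = j → (x ∈ D ↔ x ∈ D') ∧ part D x = part D' x := by
    intro j
    induction j using Nat.strong_induction_on with
    | _ j ih =>
      intro x hx
      have main : ∀ E E' : Finset (Fin n), Good E M → Good E' M →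
          (∀ i, i < j → ∀ y : Fin n, (y : ℕ) = i → part E y = part E' y) → x ∈ E → x ∈ E' := by
        intro E E' hE hE' hih hxE
        by_contra hxE'
        obtain ⟨y, hy1, hy2⟩ := hE.2 x hxE
        have hyx : y < x := by
          by_contra hcon
          have := part_mono E (not_lt.1 hcon)
          omega
        have hyj : (y : ℕ) < j := by rw [← hx]; exact hyx
        have h1 := hih y hyj y rfl
        let x' : Fin n := ⟨j - 1, by have := x.2; omega⟩
        have hx' : (x' : ℕ) + 1 = x := by simp only [x']; omega
        have h2 := (part_pred E x x' hx').1 hxE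
        have h3 := (part_pred E' x x' hx').2 hxE'
        have h4 := hih (j - 1) (by omega) x' rfl
        apply hE'.1 x y hy1
        omega
      have hiff : x ∈ D ↔ x ∈ D' :=
        ⟨main D D' h h' (fun i hi y hy => (ih i hi y hy).2),
          main D' D h' h (fun i hi y hy => ((ih i hi y hy).2).symm)⟩
      refine ⟨hiff, ?_⟩
      rcases Nat.eq_zero_or_pos j with h0 | h0
      · by_cases hxD : x ∈ D
        · exfalso
          obtain ⟨y, hy1, hy2⟩ := h.2 x hxD
          have hyx : y < x := by
            by_contra hcon
            have := part_mono D (not_lt.1 hcon)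
            omega
          rw [Fin.lt_def] at hyx
          omega
        · rw [part_zero D x (by omega) hxD, part_zero D' x (by omega) (fun h => hxD (hiff.2 h))]
      · let x' : Fin n := ⟨j - 1, by have := x.2; omega⟩
        have hx' : (x' : ℕ) + 1 = x := by simp only [x']; omega
        have h4 := (ih (j - 1) (by omega) x' rfl).2
        by_cases hxD : x ∈ D
        · rw [(part_pred D x x' hx').1 hxD, (part_pred D' x x' hx').1 (hiff.1 hxD), h4]
        · rw [(part_pred D x x' hx').2 hxD, (part_pred D' x x' hx').2 (fun h => hxD (hiff.2 h)), h4]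
  ext x
  exact (key x x rfl).1

theorem part_swap {n : ℕ} (D : Finset (Fin n)) {a b : Fin n} (hab : part D a = part D b)
    (x : Fin n) : part D (Equiv.swap a b x) = part D x := by
  by_cases h1 : x = a
  · rw [h1, Equiv.swap_apply_left, hab]
  by_cases h2 : x = b
  · rw [h2, Equiv.swap_apply_right, hab]
  rw [Equiv.swap_apply_of_ne_of_ne h1 h2]

theorem good_swap {n : ℕ} {D : Finset (Fin n)} {M : SimpleGraph (Fin n)} (h : Good D M)
    {a b : Fin n} (ha : a ∉ D) (hb : b ∉ D) (hab : part D a = part D b) : Good D (sw a b M) := by
  constructor
  · intro x y hxy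
    rw [sw_adj] at hxy
    have := h.1 _ _ hxy
    rwa [part_swap D hab, part_swap D hab] at this
  · intro d hd
    obtain ⟨y, hy1, hy2⟩ := h.2 d hd
    refine ⟨Equiv.swap a b y, ?_, ?_⟩
    · rw [sw_adj, Equiv.swap_apply_self, Equiv.swap_apply_of_ne_of_ne]
      · exact hy1
      · rintro rfl; exact ha hd
      · rintro rfl; exact hb hd
    · rw [part_swap D hab]
      exact hy2

theorem IsPM.atMostOne {n : ℕ} {M : SimpleGraph (Fin n)} (h : IsPM M) : AtMostOne M := by
  intro v w w' h1 h2
  exact (h v).unique h1 h2

theorem IsPM.sw {n : ℕ} {M : SimpleGraph (Fin n)} (h : IsPM M) (a b : Fin n) : IsPM (sw a b M) := by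
  intro v
  obtain ⟨w, hw, hu⟩ := h (Equiv.swap a b v)
  refine ⟨Equiv.swap a b w, ?_, ?_⟩
  · show M.Adj _ _
    rw [Equiv.swap_apply_self]
    exact hw
  · intro y hy
    have := hu _ hy
    rw [← this, Equiv.swap_apply_self]

end Pool.Agent.Q294.OM
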