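import Pool.Agent.Q294.OM.Greedy
import Pool.Agent.Q294.OM.Embed

/-! The groups used for the embedding. -/

set_option autoImplicit false

open Finset

namespace Pool.Agent.Q294.OM

variable {n : ℕ} (D : Finset (Fin n)) (s : ℕ → ℕ)

/-- size of the part `a` -/
def ts (a : ℕ) : ℕ := (univ.filter (fun x : Fin n => part D x = a)).card

/-- index inside the part -/
def ix (x : Fin n) : ℕ := (univ.filter (fun y : Fin n => y < x ∧ part D y = part D x)).card

theorem ix_lt (x : Fin n) : ix D x < ts D (part D x) := by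
  apply card_lt_card
  refine ⟨?_, ?_⟩
  · intro y hy
    rw [mem_filter] at hy ⊢
    exact ⟨hy.1, hy.2.2⟩
  · intro h
    have : x ∈ univ.filter (fun y => y < x ∧ part D y = part D x) := h (by simp)
    rw [mem_filter] at this
    exact lt_irrefl x this.2.1

theorem ix_mono {x y : Fin n} (hxy : x < y) (hg : part D x = part D y) : ix D x < ix D y := by
  apply card_lt_card
  refine ⟨?_, ?_⟩
  · intro z hz
    rw [mem_filter] at hz ⊢
    exact ⟨hz.1, hz.2.1.trans hxy, hz.2.2.trans hg⟩
  · intro h
    have : x ∈ univ.filter (fun z => z < x ∧ part D z = part D x) := h (by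
      rw [mem_filter]
      exact ⟨mem_univ _, hxy, hg⟩)
    rw [mem_filter] at this
    exact lt_irrefl x this.2.1

/-- number of groups in the first `a` parts -/
def SS (a : ℕ) : ℕ := ∑ b ∈ range a, (ts D b / s (ts D b) + 2)

theorem SS_mono {a b : ℕ} (h : a ≤ b) : SS D s a ≤ SS D s b :=
  sum_le_sum_of_subset (range_subset_range.2 h)

open Classical in
/-- the group of `x` -/
noncomputable def grp (x : Fin n) : ℕ :=
  SS D s (part D x) + if x ∈ D then 0 else 1 + ix D x / s (ts D (part D x))

theorem grp_lt (x : Fin n) : grp D s x < SS D s (part D x + 1) := by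
  classical
  unfold grp
  have h1 : SS D s (part D x + 1) =
      SS D s (part D x) + (ts D (part D x) / s (ts D (part D x)) + 2) := by
    unfold SS
    rw [sum_range_succ]
  have h2 : ix D x / s (ts D (part D x)) ≤ ts D (part D x) / s (ts D (part D x)) :=
    Nat.div_le_div_right (ix_lt D x).le
  rw [h1]
  generalize ix D x / s (ts D (part D x)) = A at *
  generalize ts D (part D x) / s (ts D (part D x)) = B at *
  split_ifs <;> omega

theorem le_grp (x : Fin n) : SS D s (part D x) ≤ grp D s x := Nat.le_add_right _ _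

theorem part_lt_of_mem {x y : Fin n} (hxy : x < y) (hy : y ∈ D) : part D x < part D y := by
  apply card_lt_card
  refine ⟨?_, ?_⟩
  · intro d hd
    rw [mem_filter] at hd ⊢
    exact ⟨hd.1, hd.2.trans hxy.le⟩
  · intro h
    have : y ∈ D.filter (fun d => d ≤ x) := h (by rw [mem_filter]; exact ⟨hy, le_rfl⟩)
    rw [mem_filter] at this
    exact absurd this.2 (not_le.2 hxy)

theorem grp_mono : Monotone (grp D s) := by
  classical
  intro x y hxy
  rcases eq_or_lt_of_le hxy with rfl | hxy
  · exact le_rfl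
  rcases eq_or_lt_of_le (part_mono D hxy.le) with h | h
  · have hy : y ∉ D := fun hy => absurd (part_lt_of_mem D hxy hy) (by omega)
    unfold grp
    rw [h, if_neg hy]
    have h2 := ix_mono D hxy h
    have h3 : ix D x / s (ts D (part D y)) ≤ ix D y / s (ts D (part D y)) :=
      Nat.div_le_div_right h2.le
    generalize ix D x / s (ts D (part D y)) = A at *
    generalize ix D y / s (ts D (part D y)) = B at *
    split_ifs <;> omega
  · exact (grp_lt D s x).le.trans ((SS_mono D s h).trans (le_grp D s y))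

theorem grp_eq_part {x y : Fin n} (h : grp D s x = grp D s y) : part D x = part D y := by
  by_contra hne
  rcases lt_or_gt_of_ne hne with h1 | h1
  · have h2 := grp_lt D s x
    have h3 := SS_mono D s (a := part D x + 1) (b := part D y) h1
    have h4 := le_grp D s y
    omega
  · have h2 := grp_lt D s y
    have h3 := SS_mono D s (a := part D y + 1) (b := part D x) h1
    have h4 := le_grp D s x
    omega

theorem grp_eq_of_mem {x y : Fin n} (h : grp D s x = grp D s y) (hx : x ∈ D) : x = y := by
  classical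
  have h1 := grp_eq_part D s h
  have hy : y ∈ D := by
    by_contra hy
    unfold grp at h
    rw [if_pos hx, if_neg hy, h1] at h
    generalize ix D y / s (ts D (part D y)) = B at *
    omega
  by_contra hne
  rcases lt_or_gt_of_ne hne with h2 | h2
  · exact absurd (part_lt_of_mem D h2 hy) (by omega)
  · exact absurd (part_lt_of_mem D h2 hx) (by omega)

theorem grp_eq_ix {x y : Fin n} (h : grp D s x = grp D s y) (hx : x ∉ D) :
    y ∉ D ∧ ix D x / s (ts D (part D x)) = ix D y / s (ts D (part D x)) := by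
  classical
  have hy : y ∉ D := fun hy => hx ((grp_eq_of_mem D s h.symm hy) ▸ hy)
  have h1 := grp_eq_part D s h
  refine ⟨hy, ?_⟩
  unfold grp at h
  rw [if_neg hx, if_neg hy, ← h1] at h
  omega

/-- the group of `x`, as a set -/
noncomputable def fib (x : Fin n) : Finset (Fin n) := univ.filter (fun y => grp D s y = grp D s x)

theorem mem_fib {x y : Fin n} : y ∈ fib D s x ↔ grp D s y = grp D s x := by
  unfold fib
  rw [mem_filter]
  exact ⟨fun h => h.2, fun h => ⟨mem_univ _, h⟩⟩

theorem card_fib (hs : ∀ t, 1 ≤ s t) {x : Fin n} (hx : x ∉ D) :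
    (fib D s x).card ≤ s (ts D (part D x)) := by
  classical
  set t := s (ts D (part D x)) with ht
  have ht1 : 1 ≤ t := hs _
  set q := ix D x / t with hq
  have h1 : (fib D s x).card ≤ (Finset.Ico (q * t) ((q + 1) * t)).card := by
    apply card_le_card_of_injOn (ix D)
    · intro y hy
      rw [mem_coe, mem_fib] at hy
      have h2 := (grp_eq_ix D s hy.symm hx).2
      rw [mem_coe, Finset.mem_Ico]
      rw [← ht, ← hq] at h2
      rw [h2]
      constructor
      · exact Nat.div_mul_le_self _ _
      · rw [add_mul, one_mul, mul_comm]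
        exact Nat.lt_mul_div_succ _ ht1 |>.trans_le (by rw [mul_add, mul_one])
    · intro y hy z hz hyz
      rw [mem_coe, mem_fib] at hy hz
      have h2 : part D y = part D z := (grp_eq_part D s hy).trans (grp_eq_part D s hz).symm
      by_contra hne
      rcases lt_or_gt_of_ne hne with h3 | h3
      · exact absurd (ix_mono D h3 h2) (by omega)
      · exact absurd (ix_mono D h3 h2.symm) (by omega)
  rw [Nat.card_Ico, add_mul, one_mul] at h1
  omega

theorem eb_comm (M : SimpleGraph (Fin n)) (A B : Finset (Fin n)) :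
    (eb M A B).card = (eb M B A).card := by
  apply card_nbij' (fun p => (p.2, p.1)) (fun p => (p.2, p.1))
  · rintro ⟨x, y⟩ h
    rw [mem_coe, mem_eb] at h ⊢
    exact ⟨⟨h.1.2, h.1.1⟩, h.2.symm⟩
  · rintro ⟨x, y⟩ h
    rw [mem_coe, mem_eb] at h ⊢
    exact ⟨⟨h.1.2, h.1.1⟩, h.2.symm⟩
  · rintro ⟨x, y⟩ _
    rfl
  · rintro ⟨x, y⟩ _
    rfl

theorem eb_card_le {M : SimpleGraph (Fin n)} (hM : AtMostOne M) (A B : Finset (Fin n)) :
    (eb M A B).card ≤ A.card := by
  apply card_le_card_of_injOn Prod.fst
  · intro p hp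
    rw [mem_coe, mem_eb] at hp
    exact hp.1.1
  · rintro ⟨x, y⟩ hp ⟨x', y'⟩ hp' h
    rw [mem_coe, mem_eb] at hp hp'
    simp only at h hp hp'
    subst h
    rw [hM _ _ _ hp.2 hp'.2]

/-- a matching is bad if two groups in different parts are joined by at least `m` edges -/
def Bad (m : ℕ) (M : SimpleGraph (Fin n)) : Prop :=
  ∃ x y : Fin n, x ∉ D ∧ y ∉ D ∧ part D x ≠ part D y ∧ m ≤ (eb M (fib D s x) (fib D s y)).card

open Classical in
/-- bad matchings are rare -/
theorem card_bad (hs : ∀ t, 1 ≤ s t) (m : ℕ) (hm : 2 ≤ m) (T : ℕ) (hT : ∀ t, t < T → s t = 1)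
    (hsm : ∀ t t', T ≤ t → t ≤ t' → s t ≤ s t') (η : ℝ) (hη : 0 ≤ η)
    (hη1 : ∀ t, T ≤ t → t ≤ n → m + 1 < t ∧
      (((s t) ^ 2 : ℕ) : ℝ) ^ m ≤ η * (((t - 1 - m : ℕ) : ℝ)) ^ m)
    (𝓒 : Finset (SimpleGraph (Fin n))) (h1 : ∀ M ∈ 𝓒, AtMostOne M)
    (hsw : ∀ M ∈ 𝓒, ∀ a b, a ∉ D → b ∉ D → part D a = part D b → sw a b M ∈ 𝓒) :
    ((𝓒.filter (Bad D s m)).card : ℝ) ≤ (n : ℝ) ^ 2 * η * 𝓒.card := by
  -- one pair of groups, first part at least as large as the second
  have hone : ∀ x y : Fin n, x ∉ D → y ∉ D → part D x ≠ part D y →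
      ts D (part D y) ≤ ts D (part D x) → T ≤ ts D (part D x) →
      ((𝓒.filter (fun M => m ≤ (eb M (fib D s x) (fib D s y)).card)).card : ℝ) ≤ η * 𝓒.card := by
    intro x y hx hy hxy hle hTx
    set t := ts D (part D x) with ht
    have htn : t ≤ n := by
      rw [ht]
      unfold ts
      exact (card_le_univ _).trans (by simp)
    obtain ⟨htm, hη2⟩ := hη1 t hTx htn
    let L : Finset (Fin n) := univ.filter (fun z => part D z = part D x ∧ z ∉ D)
    have hLcard : t - 1 ≤ L.card := by
      have h2 : (univ.filter (fun z : Fin n => part D z = part D x)) ⊆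
          L ∪ (univ.filter (fun z : Fin n => part D z = part D x ∧ z ∈ D)) := by
        intro z hz
        rw [mem_filter] at hz
        rw [mem_union, mem_filter, mem_filter]
        by_cases hzD : z ∈ D
        · exact Or.inr ⟨mem_univ _, hz.2, hzD⟩
        · exact Or.inl ⟨mem_univ _, hz.2, hzD⟩
      have h3 : (univ.filter (fun z : Fin n => part D z = part D x ∧ z ∈ D)).card ≤ 1 := by
        rw [card_le_one]
        intro a ha b hb
        rw [mem_filter] at ha hb
        by_contra hne
        rcases lt_or_gt_of_ne hne with h4 | h4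
        · exact absurd (part_lt_of_mem D h4 hb.2.2) (by omega)
        · exact absurd (part_lt_of_mem D h4 ha.2.2) (by omega)
      have h4 := (card_le_card h2).trans (card_union_le _ _)
      have h5 : t = (univ.filter (fun z : Fin n => part D z = part D x)).card := rfl
      omega
    have hA : fib D s x ⊆ L := by
      intro z hz
      rw [mem_fib] at hz
      rw [mem_filter]
      exact ⟨mem_univ _, grp_eq_part D s hz, (grp_eq_ix D s hz.symm hx).1⟩
    have hB : Disjoint (fib D s y) L := by
      rw [Finset.disjoint_left]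
      intro z hz hzL
      rw [mem_fib] at hz
      rw [mem_filter] at hzL
      exact hxy (hzL.2.1.symm.trans (grp_eq_part D s hz))
    have hsw' : ∀ M ∈ 𝓒, ∀ a ∈ L, ∀ b ∈ L, sw a b M ∈ 𝓒 := by
      intro M hM a ha b hb
      rw [mem_filter] at ha hb
      exact hsw M hM a b ha.2.2 hb.2.2 (ha.2.1.trans hb.2.1.symm)
    have hcount := count_many (m := m) 𝓒 L (fib D s x) (fib D s y) h1 hsw' hA hB
    have hsy : s (ts D (part D y)) ≤ s t := by
      by_cases h : ts D (part D y) < T
      · rw [hT _ h]
        exact hs t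
      · exact hsm _ _ (not_lt.1 h) hle
    have hAc : (fib D s x).card * (fib D s y).card ≤ (s t) ^ 2 := by
      rw [pow_two]
      exact Nat.mul_le_mul (card_fib D s hs hx) ((card_fib D s hs hy).trans hsy)
    have h6 : (𝓒.filter (fun M => m ≤ (eb M (fib D s x) (fib D s y)).card)).card *
        (t - 1 - m) ^ m ≤ ((s t) ^ 2) ^ m * 𝓒.card :=
      calc _ ≤ (𝓒.filter (fun M => m ≤ (eb M (fib D s x) (fib D s y)).card)).card *
            (L.card - m) ^ m :=
            Nat.mul_le_mul_left _ (Nat.pow_le_pow_left (by omega) m)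
        _ ≤ _ := hcount
        _ ≤ _ := Nat.mul_le_mul_right _ (Nat.pow_le_pow_left hAc m)
    have h7 : ((𝓒.filter (fun M => m ≤ (eb M (fib D s x) (fib D s y)).card)).card : ℝ) *
        (((t - 1 - m : ℕ) : ℝ)) ^ m ≤ (((s t) ^ 2 : ℕ) : ℝ) ^ m * 𝓒.card := by exact_mod_cast h6
    have hpos : (0 : ℝ) < (((t - 1 - m : ℕ) : ℝ)) ^ m := by
      have : 0 < t - 1 - m := by omega
      positivity
    have h8 : ((𝓒.filter (fun M => m ≤ (eb M (fib D s x) (fib D s y)).card)).card : ℝ) *
        (((t - 1 - m : ℕ) : ℝ)) ^ m ≤ (η * 𝓒.card) * (((t - 1 - m : ℕ) : ℝ)) ^ m := by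
      refine h7.trans ?_
      calc (((s t) ^ 2 : ℕ) : ℝ) ^ m * 𝓒.card ≤
            (η * (((t - 1 - m : ℕ) : ℝ)) ^ m) * 𝓒.card :=
            mul_le_mul_of_nonneg_right hη2 (Nat.cast_nonneg _)
        _ = _ := by ring
    exact le_of_mul_le_mul_right h8 hpos
  have hpair : ∀ x y : Fin n, x ∉ D → y ∉ D → part D x ≠ part D y →
      ((𝓒.filter (fun M => m ≤ (eb M (fib D s x) (fib D s y)).card)).card : ℝ) ≤ η * 𝓒.card := by
    intro x y hx hy hxy
    by_cases hTx : ts D (part D x) < T
    · have : (𝓒.filter (fun M => m ≤ (eb M (fib D s x) (fib D s y)).card)) = ∅ := by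
        rw [filter_eq_empty_iff]
        intro M hM h
        have h2 := (eb_card_le (h1 M hM) (fib D s x) (fib D s y)).trans (card_fib D s hs hx)
        rw [hT _ hTx] at h2
        omega
      rw [this, card_empty, Nat.cast_zero]
      positivity
    by_cases hTy : ts D (part D y) < T
    · have : (𝓒.filter (fun M => m ≤ (eb M (fib D s x) (fib D s y)).card)) = ∅ := by
        rw [filter_eq_empty_iff]
        intro M hM h
        rw [eb_comm] at h
        have h2 := (eb_card_le (h1 M hM) (fib D s y) (fib D s x)).trans (card_fib D s hs hy)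
        rw [hT _ hTy] at h2
        omega
      rw [this, card_empty, Nat.cast_zero]
      positivity
    rw [not_lt] at hTx hTy
    rcases le_total (ts D (part D y)) (ts D (part D x)) with h | h
    · exact hone x y hx hy hxy h hTx
    · have := hone y x hy hx hxy.symm h hTy
      simp_rw [eb_comm _ (fib D s y) (fib D s x)] at this
      exact this
  have hsub : 𝓒.filter (Bad D s m) ⊆
      ((univ : Finset (Fin n × Fin n)).filter (fun p => p.1 ∉ D ∧ p.2 ∉ D ∧
        part D p.1 ≠ part D p.2)).biUnion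
        (fun p => 𝓒.filter (fun M => m ≤ (eb M (fib D s p.1) (fib D s p.2)).card)) := by
    intro M hM
    rw [mem_filter] at hM
    obtain ⟨hMC, x, y, hx, hy, hxy, h⟩ := hM
    rw [mem_biUnion]
    refine ⟨(x, y), ?_, ?_⟩
    · rw [mem_filter]
      exact ⟨mem_univ _, hx, hy, hxy⟩
    · rw [mem_filter]
      exact ⟨hMC, h⟩
  have h9 := (card_le_card hsub).trans card_biUnion_le
  have h10 : ((𝓒.filter (Bad D s m)).card : ℝ) ≤
      ∑ p ∈ (univ : Finset (Fin n × Fin n)).filter (fun p => p.1 ∉ D ∧ p.2 ∉ D ∧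
        part D p.1 ≠ part D p.2),
        ((𝓒.filter (fun M => m ≤ (eb M (fib D s p.1) (fib D s p.2)).card)).card : ℝ) := by
    exact_mod_cast h9
  refine h10.trans ?_
  calc _ ≤ ∑ _p ∈ (univ : Finset (Fin n × Fin n)).filter (fun p => p.1 ∉ D ∧ p.2 ∉ D ∧
        part D p.1 ≠ part D p.2), η * 𝓒.card := by
        apply sum_le_sum
        intro p hp
        rw [mem_filter] at hp
        exact hpair p.1 p.2 hp.2.1 hp.2.2.1 hp.2.2.2
    _ = (((univ : Finset (Fin n × Fin n)).filter (fun p => p.1 ∉ D ∧ p.2 ∉ D ∧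
        part D p.1 ≠ part D p.2)).card : ℝ) * (η * 𝓒.card) := by
        rw [sum_const, nsmul_eq_mul]
    _ ≤ (n : ℝ) ^ 2 * (η * 𝓒.card) := by
        apply mul_le_mul_of_nonneg_right _ (by positivity)
        have : ((univ : Finset (Fin n × Fin n)).filter (fun p => p.1 ∉ D ∧ p.2 ∉ D ∧
            part D p.1 ≠ part D p.2)).card ≤ n ^ 2 := by
          refine (card_filter_le _ _).trans ?_
          simp [pow_two]
        exact_mod_cast this
    _ = _ := by ring

/-- from an embedding theorem for triangle-free graphs to ordered Ramsey numbers -/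
theorem orderedRamsey_le {n N : ℕ} (M : SimpleGraph (Fin n))
    (h : ∀ B : SimpleGraph (Fin N), (∀ a b c, B.Adj a b → B.Adj b c → ¬ B.Adj a c) →
      ∃ f : Fin n → Fin N, StrictMono f ∧ ∀ i j, M.Adj i j → ¬ B.Adj (f i) (f j)) :
    orderedRamsey M (⊤ : SimpleGraph (Fin 3)) ≤ N := by
  apply Nat.sInf_le
  intro R
  by_cases hR : OrdContains Rᶜ (⊤ : SimpleGraph (Fin 3))
  · exact Or.inr hR
  left
  have hB : ∀ a b c, Rᶜ.Adj a b → Rᶜ.Adj b c → ¬ Rᶜ.Adj a c := by
    intro a b c hab hbc hac
    apply hR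
    have hcard : ({a, b, c} : Finset (Fin N)).card = 3 := by
      rw [card_eq_three]
      exact ⟨a, b, c, hab.ne, hac.ne, hbc.ne, rfl⟩
    refine ⟨({a, b, c} : Finset (Fin N)).orderEmbOfFin hcard,
      (({a, b, c} : Finset (Fin N)).orderEmbOfFin hcard).strictMono, ?_⟩
    intro x y hxy
    have hne : x ≠ y := hxy
    have h1 := ({a, b, c} : Finset (Fin N)).orderEmbOfFin_mem hcard x
    have h2 := ({a, b, c} : Finset (Fin N)).orderEmbOfFin_mem hcard y
    have h3 : ({a, b, c} : Finset (Fin N)).orderEmbOfFin hcard x ≠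
        ({a, b, c} : Finset (Fin N)).orderEmbOfFin hcard y := fun h =>
      hne ((({a, b, c} : Finset (Fin N)).orderEmbOfFin hcard).injective h)
    simp only [mem_insert, mem_singleton] at h1 h2
    rcases h1 with h1 | h1 | h1 <;> rcases h2 with h2 | h2 | h2 <;> rw [h1, h2] at h3 ⊢
    · exact absurd rfl h3
    · exact hab
    · exact hac
    · exact hab.symm
    · exact absurd rfl h3
    · exact hbc
    · exact hac.symm
    · exact hbc.symm
    · exact absurd rfl h3
  obtain ⟨f, hf, hadj⟩ := h Rᶜ hB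
  refine ⟨f, hf, ?_⟩
  intro x y hxy
  have h1 := hadj x y hxy
  rw [SimpleGraph.compl_adj] at h1
  push Not at h1
  exact h1 (hf.injective.ne hxy.ne)

/-- good matchings which are not bad have small ordered Ramsey number -/
theorem ramsey_of_not_bad (m : ℕ) (hm : 2 ≤ m) {M : SimpleGraph (Fin n)} (hM : AtMostOne M)
    (hn : 0 < n) (hG : Good D M) (hb : ¬ Bad D s m M) :
    orderedRamsey M (⊤ : SimpleGraph (Fin 3)) ≤ SS D s (D.card + 1) * (128 * m * n) := by
  classical
  apply orderedRamsey_le
  intro B hB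
  have hlt : ∀ x : Fin n, grp D s x < SS D s (D.card + 1) := fun x =>
    lt_of_lt_of_le (grp_lt D s x) (SS_mono D s (Nat.succ_le_succ (part_le D x)))
  have hw0 : 0 < 128 * m * n := by positivity
  refine embed (c := m) (s := n) (w := 128 * m * n) (G := SS D s (D.card + 1)) M
    (fun x => ⟨grp D s x, hlt x⟩) ?_ ?_ ?_ ?_ le_rfl ?_ hw0 le_rfl B hB
  · intro x y hxy
    exact grp_mono D s hxy
  · intro P
    exact (card_le_univ _).trans (by simp)
  · intro x y hxy heq
    exact hG.1 x y hxy (grp_eq_part D s (congrArg Fin.val heq))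
  · rintro ⟨P, hP⟩ ⟨Q, hQ⟩
    have hset : (univ.filter (fun p : Fin n × Fin n => M.Adj p.1 p.2 ∧
        (⟨grp D s p.1, hlt p.1⟩ : Fin (SS D s (D.card + 1))) = ⟨P, hP⟩ ∧
        (⟨grp D s p.2, hlt p.2⟩ : Fin (SS D s (D.card + 1))) = ⟨Q, hQ⟩)) =
        eb M (univ.filter (fun x => grp D s x = P)) (univ.filter (fun x => grp D s x = Q)) := by
      ext p
      rw [mem_eb]
      simp only [mem_filter, mem_univ, true_and, Fin.mk.injEq]
      tauto
    rw [hset]
    by_contra hcon
    rw [not_le] at hcon
    have hne : (eb M (univ.filter (fun x => grp D s x = P))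
        (univ.filter (fun x => grp D s x = Q))).Nonempty := by
      rw [← card_pos]
      omega
    obtain ⟨⟨u, v⟩, huv⟩ := hne
    rw [mem_eb] at huv
    simp only [mem_filter, mem_univ, true_and] at huv
    obtain ⟨⟨hu, hv⟩, hadj⟩ := huv
    have eP : univ.filter (fun x => grp D s x = P) = fib D s u := by
      unfold fib
      rw [hu]
    have eQ : univ.filter (fun x => grp D s x = Q) = fib D s v := by
      unfold fib
      rw [hv]
    rw [eP, eQ] at hcon
    by_cases huD : u ∈ D
    · have h1 : (fib D s u).card ≤ 1 := by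
        rw [card_le_one]
        intro a ha b hb
        rw [mem_fib] at ha hb
        rw [← grp_eq_of_mem D s ha.symm huD, ← grp_eq_of_mem D s hb.symm huD]
      have h2 := eb_card_le hM (fib D s u) (fib D s v)
      omega
    by_cases hvD : v ∈ D
    · have h1 : (fib D s v).card ≤ 1 := by
        rw [card_le_one]
        intro a ha b hb
        rw [mem_fib] at ha hb
        rw [← grp_eq_of_mem D s ha.symm hvD, ← grp_eq_of_mem D s hb.symm hvD]
      rw [eb_comm] at hcon
      have h2 := eb_card_le hM (fib D s v) (fib D s u)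
      omega
    exact hb ⟨u, v, huD, hvD, hG.1 u v hadj, hcon.le⟩
  · nlinarith

end Pool.Agent.Q294.OM
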