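import Pool.Agent.Q294.OM.Asym

/-! There are matchings of every interval chromatic number; the proportion tends to one. -/

set_option autoImplicit false

open Finset

namespace Pool.Agent.Q294.OM

/-- the partner of `x` -/
def ptn (r h x : ℕ) : ℕ :=
  if x < r then (if x % 2 = 0 then x + 1 else x - 1) else if x < r + h then x + h else x - h

theorem ptn_facts {k h : ℕ} (_hk : 2 ≤ k) (hh : 1 ≤ h) {x : ℕ} (hx : x < 2 * (k - 2) + 2 * h) :
    ptn (2 * (k - 2)) h x < 2 * (k - 2) + 2 * h ∧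
    ptn (2 * (k - 2)) h (ptn (2 * (k - 2)) h x) = x ∧ ptn (2 * (k - 2)) h x ≠ x := by
  unfold ptn
  refine ⟨?_, ?_, ?_⟩ <;> split_ifs <;> omega

/-- the part number -/
def pn (k h x : ℕ) : ℕ :=
  if x < 2 * (k - 2) then (x + 1) / 2 else if x < 2 * (k - 2) + h then k - 2 else k - 1

/-- the matching -/
def exM (k h n : ℕ) (hk : 2 ≤ k) (hh : 1 ≤ h) (hn : n = 2 * (k - 2) + 2 * h) :
    SimpleGraph (Fin n) where
  Adj x y := (y : ℕ) = ptn (2 * (k - 2)) h x
  symm := ⟨by
    intro x y hxy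
    have hx : (x : ℕ) < 2 * (k - 2) + 2 * h := by
      have := x.2
      omega
    rw [hxy]
    exact (ptn_facts hk hh hx).2.1.symm⟩
  loopless := ⟨by
    intro x hxy
    have hx : (x : ℕ) < 2 * (k - 2) + 2 * h := by
      have := x.2
      omega
    exact (ptn_facts hk hh hx).2.2 hxy.symm⟩

theorem exM_mem {k h n : ℕ} (hk : 2 ≤ k) (hh : 1 ≤ h) (hn : n = 2 * (k - 2) + 2 * h) :
    exM k h n hk hh hn ∈ cls n k := by
  classical
  set r := 2 * (k - 2) with hr
  have hPM : IsPM (exM k h n hk hh hn) := by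
    intro v
    have hv : (v : ℕ) < 2 * (k - 2) + 2 * h := by
      have := v.2
      omega
    refine ⟨⟨ptn (2 * (k - 2)) h v, lt_of_lt_of_eq (ptn_facts hk hh hv).1 hn.symm⟩, rfl, ?_⟩
    intro y hy
    exact Fin.ext hy
  let D : Finset (Fin n) := univ.filter (fun x => ((x : ℕ) < r ∧ (x : ℕ) % 2 = 1) ∨ (x : ℕ) = r + h)
  have hmemD : ∀ x : Fin n, x ∈ D ↔ (((x : ℕ) < r ∧ (x : ℕ) % 2 = 1) ∨ (x : ℕ) = r + h) := by
    intro x
    simp only [D, mem_filter, mem_univ, true_and]
  have hpart : ∀ j : ℕ, ∀ x : Fin n, (x : ℕ) = j → part D x = pn k h j := by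
    intro j
    induction j with
    | zero =>
      intro x hx
      rw [part_zero D x hx (by rw [hmemD, hx]; omega)]
      unfold pn
      split_ifs <;> omega
    | succ j ih =>
      intro x hx
      let x' : Fin n := ⟨j, by have := x.2; omega⟩
      have hx' : (x' : ℕ) + 1 = x := by simp only [x']; omega
      have hih := ih x' rfl
      have hp := part_pred D x x' hx'
      by_cases hxD : x ∈ D
      · rw [hp.1 hxD, hih]
        rw [hmemD, hx] at hxD
        unfold pn
        split_ifs <;> omega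
      · rw [hp.2 hxD, hih]
        rw [hmemD, hx] at hxD
        unfold pn
        split_ifs <;> omega
  have hgood : Good D (exM k h n hk hh hn) := by
    constructor
    · intro x y hxy
      have h1 : (y : ℕ) = ptn (2 * (k - 2)) h x := hxy
      rw [hpart x x rfl, hpart y y rfl, h1]
      have hx := x.2
      unfold pn ptn
      split_ifs <;> omega
    · intro d hd
      have hdlt : (d : ℕ) < 2 * (k - 2) + 2 * h := by
        have := d.2
        omega
      refine ⟨⟨ptn (2 * (k - 2)) h d, lt_of_lt_of_eq (ptn_facts hk hh hdlt).1 hn.symm⟩, rfl, ?_⟩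
      rw [hpart _ _ rfl, hpart d d rfl]
      rw [hmemD] at hd
      show pn k h (ptn (2 * (k - 2)) h d) + 1 = pn k h d
      unfold pn ptn
      split_ifs <;> omega
  have hnpos : 0 < n := by omega
  refine ⟨hPM, ?_⟩
  rw [good_card hnpos hgood]
  let z : Fin n := ⟨n - 1, by omega⟩
  have h2 : part D z = D.card := by
    unfold part
    congr 1
    apply filter_true_of_mem
    intro d _
    rw [Fin.le_def]
    have := d.2
    simp only [z]
    omega
  rw [← h2, hpart (n - 1) z rfl]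
  unfold pn
  split_ifs <;> omega

theorem cls_nonempty {k N : ℕ} (hk : 2 ≤ k) (hN : k ≤ N) : 0 < (cls (2 * N) k).ncard := by
  rw [Set.ncard_pos (Set.toFinite _)]
  exact ⟨_, exM_mem (k := k) (h := N - (k - 2)) (n := 2 * N) hk (by omega) (by omega)⟩

/-- those with small ordered Ramsey number against the triangle -/
def small (n k : ℕ) (b : ℝ) : Set (SimpleGraph (Fin n)) :=
  {M | (IsPM M ∧ intervalChromatic M = k) ∧
    (orderedRamsey M (⊤ : SimpleGraph (Fin 3)) : ℝ) ≤ b}

theorem small_add_big (n k : ℕ) (b : ℝ) :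
    (small n k b).ncard + (big n k b).ncard = (cls n k).ncard := by
  rw [← Set.ncard_union_eq ?_ (Set.toFinite _) (Set.toFinite _)]
  · congr 1
    ext M
    simp only [small, big, cls, Set.mem_union, Set.mem_ofPred_eq]
    constructor
    · rintro (h | h) <;> exact h.1
    · intro h
      rcases le_or_gt ((orderedRamsey M (⊤ : SimpleGraph (Fin 3)) : ℝ)) b with h1 | h1
      · exact Or.inl ⟨h, h1⟩
      · exact Or.inr ⟨h, h1⟩
  · rw [Set.disjoint_left]
    intro M h1 h2
    exact absurd h1.2 (not_le.2 h2.2)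

theorem tendsto_small (k : ℕ) (hk : 2 ≤ k) (θ : ℝ) (h0 : 0 < θ) (h1 : θ < 1 / 2) :
    ∃ C : ℝ, 0 < C ∧ Filter.Tendsto (fun N : ℕ =>
      ((small (2 * N) k (C * ((2 * N : ℕ) : ℝ) ^ (2 - θ))).ncard : ℝ) /
        ((cls (2 * N) k).ncard : ℝ)) Filter.atTop (nhds 1) := by
  obtain ⟨C, hC, h⟩ := almost_every k (by omega) θ h0 h1
  refine ⟨C, hC, ?_⟩
  rw [Metric.tendsto_atTop]
  intro δ hδ
  obtain ⟨n₀, hn₀⟩ := h (δ / 2) (half_pos hδ)
  refine ⟨max n₀ k, ?_⟩
  intro N hN
  have hN1 : n₀ ≤ 2 * N := by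
    have := le_max_left n₀ k
    omega
  have hN2 : k ≤ N := le_trans (le_max_right _ _) hN
  have hpos : (0 : ℝ) < ((cls (2 * N) k).ncard : ℝ) := by exact_mod_cast cls_nonempty hk hN2
  have hb := hn₀ (2 * N) hN1
  have hsum := small_add_big (2 * N) k (C * ((2 * N : ℕ) : ℝ) ^ (2 - θ))
  have hsumR : ((small (2 * N) k (C * ((2 * N : ℕ) : ℝ) ^ (2 - θ))).ncard : ℝ) +
      ((big (2 * N) k (C * ((2 * N : ℕ) : ℝ) ^ (2 - θ))).ncard : ℝ) =
        ((cls (2 * N) k).ncard : ℝ) := by exact_mod_cast hsum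
  rw [Real.dist_eq, abs_sub_comm, abs_of_nonneg]
  · rw [← hsumR]
    rw [← hsumR] at hpos hb
    rw [one_sub_div hpos.ne', div_lt_iff₀ hpos]
    have : (0 : ℝ) ≤ ((big (2 * N) k (C * ((2 * N : ℕ) : ℝ) ^ (2 - θ))).ncard : ℝ) :=
      Nat.cast_nonneg _
    nlinarith
  · rw [sub_nonneg, div_le_one hpos, ← hsumR]
    have : (0 : ℝ) ≤ ((big (2 * N) k (C * ((2 * N : ℕ) : ℝ) ^ (2 - θ))).ncard : ℝ) :=
      Nat.cast_nonneg _
    linarith

end Pool.Agent.Q294.OM
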